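import Pool.Agent.Lib.MP_b07157_agW.WX
import Pool.Agent.Lib.MP_b07157_agM.WCDefs

/-!
# Linearization of vector fields of weight zero
-/

noncomputable section

namespace MPb07157

open MvPolynomial

namespace TW

variable {n : ℕ}

/-! ### The linear part -/

/-- The linear part of a polynomial. -/
def Lp : MvPolynomial (Fin n) ℂ →ₗ[ℂ] (Fin n → ℂ) where
  toFun p j := constantCoeff (pderiv j p)
  map_add' p q := by
    funext j
    rw [map_add, map_add, Pi.add_apply]
  map_smul' c p := by
    funext j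
    rw [Derivation.map_smul, smul_eq_C_mul, map_mul, constantCoeff_C, Pi.smul_apply,
      RingHom.id_apply, smul_eq_mul]

theorem Lp_apply (p : MvPolynomial (Fin n) ℂ) (j : Fin n) :
    Lp p j = constantCoeff (pderiv j p) := rfl

theorem Lp_eq_coeff (p : MvPolynomial (Fin n) ℂ) (j : Fin n) :
    Lp p j = coeff (Finsupp.single j 1) p := by
  classical
  induction p using MvPolynomial.induction_on' with
  | monomial u c =>
    rw [Lp_apply, pderiv_monomial, constantCoeff_eq, coeff_monomial, coeff_monomial]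
    by_cases h : u = Finsupp.single j 1
    · rw [h, if_pos (by simp), if_pos rfl]
      simp
    · rw [if_neg h]
      split_ifs with h1
      · have h2 : u j = 0 := by
          by_contra h3
          apply h
          ext i
          have h4 := DFunLike.congr_fun h1 i
          rw [Finsupp.tsub_apply, Finsupp.zero_apply] at h4
          by_cases hi : j = i
          · subst hi
            rw [Finsupp.single_eq_same] at h4 ⊢
            omega
          · rw [Finsupp.single_eq_of_ne (Ne.symm hi)] at h4 ⊢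
            omega
        rw [h2, Nat.cast_zero, mul_zero]
      · rfl
  | add p q hp hq => rw [map_add, Pi.add_apply, hp, hq, coeff_add]

theorem Lp_X (j : Fin n) : Lp (X j : MvPolynomial (Fin n) ℂ) = Pi.single j 1 := by
  classical
  funext i
  rw [Lp_apply]
  by_cases h : i = j
  · subst h
    rw [pderiv_X_self, map_one, Pi.single_eq_same]
  · rw [pderiv_X_of_ne (Ne.symm h), map_zero, Pi.single_eq_of_ne h]

theorem weight_single (a : Fin n → ℕ) (j : Fin n) :
    Finsupp.weight a (Finsupp.single j 1) = a j := by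
  rw [Finsupp.weight_apply, Finsupp.sum_single_index (by simp), one_smul]

theorem Lp_weight {a : Fin n → ℕ} {k : ℕ} {p : MvPolynomial (Fin n) ℂ}
    (hp : p.IsWeightedHomogeneous a k) {j : Fin n} (h : Lp p j ≠ 0) : a j = k := by
  rw [Lp_eq_coeff] at h
  rw [← weight_single a j]
  exact hp h

theorem constantCoeff_eq_zero {a : Fin n → ℕ} {k : ℕ} (hk : 0 < k) {p : MvPolynomial (Fin n) ℂ}
    (hp : p.IsWeightedHomogeneous a k) : constantCoeff p = 0 := by
  by_contra h
  rw [constantCoeff_eq] at h
  have := hp h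
  rw [map_zero] at this
  omega

/-! ### The derivation -/

theorem mkDer_apply (v : Fin n → MvPolynomial (Fin n) ℂ) (p : MvPolynomial (Fin n) ℂ) :
    mkDerivation ℂ v p = ∑ i, v i * pderiv i p := by
  classical
  have hcoe : ∀ (s : Finset (Fin n)) (p : MvPolynomial (Fin n) ℂ),
      (∑ i ∈ s, v i • (pderiv i : Derivation ℂ (MvPolynomial (Fin n) ℂ) _)) p =
      ∑ i ∈ s, v i * pderiv i p := by
    intro s p
    induction s using Finset.induction_on with
    | empty => simp
    | insert i s hi ih =>
      rw [Finset.sum_insert hi, Finset.sum_insert hi, Derivation.add_apply, ih,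
        Derivation.smul_apply, smul_eq_mul]
  have h0 : ∀ p, (∑ i, v i • (pderiv i : Derivation ℂ (MvPolynomial (Fin n) ℂ) _)) p =
      ∑ i, v i * pderiv i p := hcoe Finset.univ
  have h1 : mkDerivation ℂ v =
      ∑ i, v i • (pderiv i : Derivation ℂ (MvPolynomial (Fin n) ℂ) _) := by
    apply MvPolynomial.derivation_ext
    intro j
    rw [mkDerivation_X, h0, Finset.sum_eq_single j]
    · rw [pderiv_X_self, mul_one]
    · intro i _ hij
      rw [pderiv_X_of_ne hij.symm, mul_zero]
    · intro h2
      exact absurd (Finset.mem_univ j) h2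
  rw [h1, h0]

theorem der_weighted {a : Fin n → ℕ} {v : Fin n → MvPolynomial (Fin n) ℂ}
    (hv : ∀ i, (v i).IsWeightedHomogeneous a (a i)) {k : ℕ} {p : MvPolynomial (Fin n) ℂ}
    (hp : p.IsWeightedHomogeneous a k) : (mkDerivation ℂ v p).IsWeightedHomogeneous a k := by
  induction hp using IsWeightedHomogeneous.induction_on with
  | zero =>
    rw [map_zero]
    exact isWeightedHomogeneous_zero _ _ _
  | add p q hp hq h1 h2 =>
    rw [map_add]
    exact h1.add h2
  | monomial d r hr =>
    rw [mkDerivation_monomial, smul_eq_C_mul]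
    refine IsWeightedHomogeneous.C_mul ?_ _
    refine IsWeightedHomogeneous.sum _ _ _ fun i hi => ?_
    have h1 : d = (d - Finsupp.single i 1) + Finsupp.single i 1 := by
      refine (tsub_add_cancel_of_le ?_).symm
      rw [Finsupp.single_le_iff]
      have := Finsupp.mem_support_iff.1 hi
      omega
    have h2 : k = Finsupp.weight a (d - Finsupp.single i 1) + a i := by
      conv_lhs => rw [← hr, h1, map_add, weight_single]
    rw [h2]
    exact (isWeightedHomogeneous_monomial a (d - Finsupp.single i 1) ((d i : ℕ) : ℂ) rfl).mul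
      (hv i)

theorem Lp_der {a : Fin n → ℕ} (ha : ∀ i, 0 < a i) {v : Fin n → MvPolynomial (Fin n) ℂ}
    (hv : ∀ i, (v i).IsWeightedHomogeneous a (a i)) (p : MvPolynomial (Fin n) ℂ) :
    Lp (mkDerivation ℂ v p) = Fintype.linearCombination ℂ (fun i => Lp (v i)) (Lp p) := by
  rw [mkDer_apply, map_sum, Fintype.linearCombination_apply]
  refine Finset.sum_congr rfl fun i _ => ?_
  funext j
  rw [Lp_apply, Derivation.leibniz, map_add, smul_eq_mul, smul_eq_mul, map_mul, map_mul,
    constantCoeff_eq_zero (ha i) (hv i), zero_mul, zero_add, Pi.smul_apply, Lp_apply, Lp_apply,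
    smul_eq_mul]

/-! ### Generalized eigenvectors -/

theorem Lp_gen {D : Derivation ℂ (MvPolynomial (Fin n) ℂ) (MvPolynomial (Fin n) ℂ)}
    {T : Module.End ℂ (Fin n → ℂ)} (hD : ∀ p, Lp (D p) = T (Lp p)) {p : MvPolynomial (Fin n) ℂ}
    {μ : ℂ} (hp : p ∈ Module.End.maxGenEigenspace
      (D : MvPolynomial (Fin n) ℂ →ₗ[ℂ] MvPolynomial (Fin n) ℂ) μ) :
    Lp p ∈ T.maxGenEigenspace μ := by
  rw [Module.End.mem_maxGenEigenspace] at hp ⊢
  obtain ⟨k, hk⟩ := hp
  refine ⟨k, ?_⟩
  have key : ∀ (k : ℕ), Lp ((((D : MvPolynomial (Fin n) ℂ →ₗ[ℂ] MvPolynomial (Fin n) ℂ) -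
      μ • (1 : Module.End ℂ (MvPolynomial (Fin n) ℂ))) ^ k) p) =
      ((T - μ • (1 : Module.End ℂ (Fin n → ℂ))) ^ k) (Lp p) := by
    intro k
    induction k with
    | zero => rfl
    | succ k ih =>
      rw [pow_succ', Module.End.mul_apply, pow_succ', Module.End.mul_apply, ← ih,
        LinearMap.sub_apply, LinearMap.smul_apply, Module.End.one_apply, Derivation.coeFn_coe,
        LinearMap.sub_apply, LinearMap.smul_apply, Module.End.one_apply, map_sub, map_smul, hD]
  rw [← key, hk, map_zero]

/-- the linear parts of the weighted homogeneous generalized eigenvectors -/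
def Gs (a : Fin n → ℕ) (D : Derivation ℂ (MvPolynomial (Fin n) ℂ) (MvPolynomial (Fin n) ℂ)) :
    Set (Fin n → ℂ) :=
  {c | ∃ (k : ℕ) (μ : ℂ) (y : MvPolynomial (Fin n) ℂ), y.IsWeightedHomogeneous a k ∧
    y ∈ Module.End.maxGenEigenspace
      (D : MvPolynomial (Fin n) ℂ →ₗ[ℂ] MvPolynomial (Fin n) ℂ) μ ∧ Lp y = c}

theorem mem_of_gen {M : Type*} [AddCommGroup M] [Module ℂ M] (f : Module.End ℂ M)
    (V : Submodule ℂ M) (hfin : V.FG) (hV : ∀ x ∈ V, f x ∈ V) (S : Submodule ℂ M)
    (hS : ∀ μ, ∀ y ∈ V, y ∈ f.maxGenEigenspace μ → y ∈ S) {x : M} (hx : x ∈ V) : x ∈ S := by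
  have hfd : FiniteDimensional ℂ V := Module.Finite.iff_fg.2 hfin
  have htop : (⟨x, hx⟩ : V) ∈ ⨆ μ, Module.End.maxGenEigenspace (LinearMap.restrict f hV) μ := by
    rw [Module.End.iSup_maxGenEigenspace_eq_top]
    trivial
  refine Submodule.iSup_induction _ (motive := fun x : V => (x : M) ∈ S) htop ?_ ?_ ?_
  · intro μ x hx
    refine hS μ x x.2 ?_
    have h1 := Module.End.genEigenspace_restrict f V ⊤ μ hV
    have h2 : x ∈ Module.End.genEigenspace (LinearMap.restrict f hV) μ ⊤ := hx
    rw [h1, Submodule.mem_comap] at h2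
    exact h2
  · exact Submodule.zero_mem _
  · intro x y hx hy
    exact Submodule.add_mem _ hx hy

theorem Lp_mem_span {a : Fin n → ℕ} (ha : ∀ i, 0 < a i)
    {D : Derivation ℂ (MvPolynomial (Fin n) ℂ) (MvPolynomial (Fin n) ℂ)}
    (hD : ∀ (k : ℕ) (p : MvPolynomial (Fin n) ℂ), p.IsWeightedHomogeneous a k →
      (D p).IsWeightedHomogeneous a k) {k : ℕ} {p : MvPolynomial (Fin n) ℂ}
    (hp : p.IsWeightedHomogeneous a k) : Lp p ∈ Submodule.span ℂ (Gs a D) := by
  have h1 : p ∈ (Submodule.span ℂ (Gs a D)).comap Lp := by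
    refine mem_of_gen (D : MvPolynomial (Fin n) ℂ →ₗ[ℂ] MvPolynomial (Fin n) ℂ)
      (weightedHomogeneousSubmodule ℂ a k)
      (weightedHomogeneousSubmodule_fg ℂ a (fun i => (ha i).ne') k) (fun x hx => hD k x hx) _
      (fun μ y hy hyg => ?_) (x := p) hp
    exact Submodule.subset_span ⟨k, μ, y, hy, hyg, rfl⟩
  exact h1

/-- Weighted homogeneous generalized eigenvectors whose linear parts are a basis. -/
theorem exists_y {a : Fin n → ℕ} (ha : ∀ i, 0 < a i)
    {D : Derivation ℂ (MvPolynomial (Fin n) ℂ) (MvPolynomial (Fin n) ℂ)}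
    (hD : ∀ (k : ℕ) (p : MvPolynomial (Fin n) ℂ), p.IsWeightedHomogeneous a k →
      (D p).IsWeightedHomogeneous a k) :
    ∃ (y : Fin n → MvPolynomial (Fin n) ℂ) (lam : Fin n → ℂ)
      (b : Module.Basis (Fin n) ℂ (Fin n → ℂ)), (∀ i, (y i).IsWeightedHomogeneous a (a i)) ∧
      (∀ i, y i ∈ Module.End.maxGenEigenspace
        (D : MvPolynomial (Fin n) ℂ →ₗ[ℂ] MvPolynomial (Fin n) ℂ) (lam i)) ∧
      ∀ i, b i = Lp (y i) := by
  classical
  have hspan : (⊤ : Submodule ℂ (Fin n → ℂ)) ≤ Submodule.span ℂ (Gs a D) := by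
    intro c _
    have h1 : c = ∑ i, c i • (Lp (X i : MvPolynomial (Fin n) ℂ)) := by
      rw [Finset.sum_congr rfl fun i _ => by rw [Lp_X]]
      exact pi_eq_sum_univ' c
    rw [h1]
    exact Submodule.sum_mem _ fun i _ => Submodule.smul_mem _ _
      (Lp_mem_span ha hD (isWeightedHomogeneous_X _ _ i))
  obtain ⟨s, hs, hs1, hs2⟩ := exists_linearIndependent ℂ (Gs a D)
  let B0 : Module.Basis s ℂ (Fin n → ℂ) := Module.Basis.mk hs2 (by
    rw [Subtype.range_coe, hs1]
    exact hspan)
  let e := B0.indexEquiv (Pi.basisFun ℂ (Fin n))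
  let B := B0.reindex e
  have hB : ∀ i, B i ∈ Gs a D := by
    intro i
    have h1 : B i = ((e.symm i : s) : Fin n → ℂ) := by
      change (B0.reindex e) i = _
      rw [Module.Basis.reindex_apply]
      exact Module.Basis.mk_apply _ _ _
    rw [h1]
    exact hs (e.symm i).2
  choose k μ y hy1 hy2 hy3 using hB
  have hdet : (Matrix.of fun i j => B i j).det ≠ 0 := by
    have h1 : IsUnit (Matrix.of fun i j => B i j) := by
      rw [← Matrix.linearIndependent_rows_iff_isUnit]
      exact B.linearIndependent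
    exact ((Matrix.isUnit_iff_isUnit_det _).1 h1).ne_zero
  rw [Matrix.det_apply] at hdet
  obtain ⟨σ, -, hσ⟩ := Finset.exists_ne_zero_of_sum_ne_zero hdet
  have hσ2 : ∀ i, B (σ i) i ≠ 0 := by
    intro i h0
    apply hσ
    have h1 : ∏ i, (Matrix.of fun i j => B i j) (σ i) i = 0 :=
      Finset.prod_eq_zero (Finset.mem_univ i) h0
    rw [h1, smul_zero]
  have hk : ∀ i, k (σ i) = a i := by
    intro i
    refine (Lp_weight (hy1 (σ i)) (j := i) ?_).symm
    rw [hy3]
    exact hσ2 i
  refine ⟨fun i => y (σ i), fun i => μ (σ i), B.reindex σ.symm, fun i => ?_, fun i => hy2 _,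
    fun i => ?_⟩
  · rw [← hk i]
    exact hy1 _
  · rw [Module.Basis.reindex_apply, Equiv.symm_symm, hy3]

/-! ### The automorphism -/

theorem aeval_weighted {a : Fin n → ℕ} {y : Fin n → MvPolynomial (Fin n) ℂ}
    (hy : ∀ i, (y i).IsWeightedHomogeneous a (a i)) {k : ℕ} {p : MvPolynomial (Fin n) ℂ}
    (hp : p.IsWeightedHomogeneous a k) : (aeval y p).IsWeightedHomogeneous a k := by
  induction hp using IsWeightedHomogeneous.induction_on with
  | zero =>
    rw [map_zero]
    exact isWeightedHomogeneous_zero _ _ _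
  | add p q hp hq h1 h2 =>
    rw [map_add]
    exact h1.add h2
  | monomial d r hr =>
    rw [aeval_monomial, algebraMap_eq]
    refine IsWeightedHomogeneous.C_mul ?_ _
    have h1 := IsWeightedHomogeneous.prod d.support (fun i => y i ^ d i) (fun i => d i • a i)
      (w := a) (fun i _ => (hy i).pow (d i))
    rw [← hr, Finsupp.weight_apply]
    exact h1

theorem comp_aeval {a : Fin n → ℕ} {y : Fin n → MvPolynomial (Fin n) ℂ}
    (hy : ∀ i, (y i).IsWeightedHomogeneous a (a i)) (k : ℕ) (p : MvPolynomial (Fin n) ℂ) :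
    weightedHomogeneousComponent a k (aeval y p) =
      aeval y (weightedHomogeneousComponent a k p) := by
  induction p using MvPolynomial.induction_on' with
  | monomial u c =>
    have h1 := isWeightedHomogeneous_monomial a u c rfl
    have h2 := aeval_weighted hy h1
    by_cases h : Finsupp.weight a u = k
    · subst h
      rw [h1.weightedHomogeneousComponent_same, h2.weightedHomogeneousComponent_same]
    · rw [h1.weightedHomogeneousComponent_ne _ (Ne.symm h),
        h2.weightedHomogeneousComponent_ne _ (Ne.symm h), map_zero]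
  | add p q hp hq => rw [map_add, map_add, map_add, map_add, hp, hq]

theorem mem_range_of_Lp {a : Fin n → ℕ} (ha : ∀ i, 0 < a i)
    (S : Subalgebra ℂ (MvPolynomial (Fin n) ℂ)) {k : ℕ} (hS : ∀ j, a j < k → X j ∈ S)
    {q : MvPolynomial (Fin n) ℂ} (hq : q.IsWeightedHomogeneous a k) (hL : Lp q = 0) : q ∈ S := by
  classical
  rw [q.as_sum]
  refine Subalgebra.sum_mem _ fun u hu => ?_
  have hu' := mem_support_iff.1 hu
  rw [monomial_eq]
  refine Subalgebra.mul_mem _ (Subalgebra.algebraMap_mem S _) ?_
  refine Subalgebra.prod_mem _ fun i hi => Subalgebra.pow_mem _ (hS i ?_) _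
  by_contra hcon
  push Not at hcon
  have hw := hq hu'
  have h1 : u = (u - Finsupp.single i 1) + Finsupp.single i 1 := by
    refine (tsub_add_cancel_of_le ?_).symm
    rw [Finsupp.single_le_iff]
    have := Finsupp.mem_support_iff.1 hi
    omega
  rw [h1, map_add, weight_single] at hw
  have h2 : Finsupp.weight a (u - Finsupp.single i 1) = 0 := by omega
  have h3 : u - Finsupp.single i 1 = 0 := by
    ext j
    by_contra h4
    have h5 : Finsupp.weight a (u - Finsupp.single i 1) =
        ∑ l, (u - Finsupp.single i 1 : Fin n →₀ ℕ) l • a l := by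
      rw [Finsupp.weight_apply, Finsupp.sum_fintype _ _ (fun i => by simp)]
    rw [h5, Finset.sum_eq_zero_iff] at h2
    have h6 := h2 j (Finset.mem_univ j)
    rw [smul_eq_mul, mul_eq_zero] at h6
    rcases h6 with h6 | h6
    · exact h4 h6
    · exact (ha j).ne' h6
  rw [h3, zero_add] at h1
  rw [h1, ← Lp_eq_coeff, hL] at hu'
  exact hu' rfl

theorem X_mem_range {a : Fin n → ℕ} (ha : ∀ i, 0 < a i) {y : Fin n → MvPolynomial (Fin n) ℂ}
    (hy : ∀ i, (y i).IsWeightedHomogeneous a (a i)) (b : Module.Basis (Fin n) ℂ (Fin n → ℂ))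
    (hb : ∀ i, b i = Lp (y i)) (S : Subalgebra ℂ (MvPolynomial (Fin n) ℂ)) (hS : ∀ i, y i ∈ S)
    (k : ℕ) : ∀ j, a j = k → X j ∈ S := by
  classical
  induction k using Nat.strong_induction_on with
  | _ k ih =>
    intro j hj
    set c := b.repr (Pi.single j 1) with hc
    have hsum : ∑ i, c i • b i = Pi.single j 1 := b.sum_repr _
    set q := X j - ∑ i ∈ Finset.univ.filter (fun i => a i = k), c i • y i with hq
    have hqk : q.IsWeightedHomogeneous a k := by
      refine IsWeightedHomogeneous.sub ?_ ?_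
      · rw [← hj]
        exact isWeightedHomogeneous_X _ _ j
      · refine IsWeightedHomogeneous.sum _ _ _ fun i hi => ?_
        rw [smul_eq_C_mul, ← (Finset.mem_filter.1 hi).2]
        exact (hy i).C_mul _
    have hqL : Lp q = 0 := by
      rw [hq, map_sub, sub_eq_zero, Lp_X, map_sum]
      simp only [map_smul, ← hb]
      funext l
      by_cases hl : a l = k
      · rw [← hsum, Finset.sum_apply, Finset.sum_apply]
        refine (Finset.sum_subset (Finset.filter_subset _ _) fun i _ hi => ?_).symm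
        have h1 : b i l = 0 := by
          by_contra h2
          rw [hb] at h2
          apply hi
          rw [Finset.mem_filter]
          exact ⟨Finset.mem_univ i, by rw [← Lp_weight (hy i) h2, hl]⟩
        rw [Pi.smul_apply, h1, smul_zero]
      · rw [Pi.single_eq_of_ne (by rintro rfl; exact hl hj), Finset.sum_apply]
        refine (Finset.sum_eq_zero fun i hi => ?_).symm
        have h1 : b i l = 0 := by
          by_contra h2
          rw [hb] at h2
          apply hl
          rw [Lp_weight (hy i) h2]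
          exact (Finset.mem_filter.1 hi).2
        rw [Pi.smul_apply, h1, smul_zero]
    have h1 := mem_range_of_Lp ha S (fun l hl => ih (a l) hl l rfl) hqk hqL
    have h2 : X j = q + ∑ i ∈ Finset.univ.filter (fun i => a i = k), c i • y i := by
      rw [hq, sub_add_cancel]
    rw [h2]
    exact Subalgebra.add_mem _ h1 (Subalgebra.sum_mem _ fun i _ => Subalgebra.smul_mem _ (hS i) _)

theorem aeval_surjective {a : Fin n → ℕ} (ha : ∀ i, 0 < a i)
    {y : Fin n → MvPolynomial (Fin n) ℂ} (hy : ∀ i, (y i).IsWeightedHomogeneous a (a i))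
    (b : Module.Basis (Fin n) ℂ (Fin n → ℂ)) (hb : ∀ i, b i = Lp (y i)) :
    Function.Surjective (aeval y : MvPolynomial (Fin n) ℂ →ₐ[ℂ] MvPolynomial (Fin n) ℂ) := by
  rw [← AlgHom.range_eq_top, eq_top_iff, ← adjoin_range_X, Algebra.adjoin_le_iff]
  rintro _ ⟨j, rfl⟩
  exact X_mem_range ha hy b hb (AlgHom.range (aeval y))
    (fun i => (AlgHom.mem_range _).2 ⟨X i, aeval_X _ _⟩) (a j) j rfl

theorem aeval_injective {a : Fin n → ℕ} (ha : ∀ i, 0 < a i)
    {y : Fin n → MvPolynomial (Fin n) ℂ} (hy : ∀ i, (y i).IsWeightedHomogeneous a (a i))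
    (b : Module.Basis (Fin n) ℂ (Fin n → ℂ)) (hb : ∀ i, b i = Lp (y i)) :
    Function.Injective (aeval y : MvPolynomial (Fin n) ℂ →ₐ[ℂ] MvPolynomial (Fin n) ℂ) := by
  rw [injective_iff_map_eq_zero]
  intro q hq
  have key : ∀ k, weightedHomogeneousComponent a k q = 0 := by
    intro k
    set V := weightedHomogeneousSubmodule ℂ a k with hV
    have hfd : FiniteDimensional ℂ V :=
      Module.Finite.iff_fg.2 (weightedHomogeneousSubmodule_fg ℂ a (fun i => (ha i).ne') k)
    have hEV : ∀ x ∈ V, (aeval y : MvPolynomial (Fin n) ℂ →ₐ[ℂ] MvPolynomial (Fin n) ℂ).toLinearMap x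
        ∈ V := fun x hx => aeval_weighted hy hx
    set E : V →ₗ[ℂ] V := (aeval y : MvPolynomial (Fin n) ℂ →ₐ[ℂ]
      MvPolynomial (Fin n) ℂ).toLinearMap.restrict hEV with hE
    have hsurj : Function.Surjective E := by
      rintro ⟨p, hp⟩
      obtain ⟨r, hr⟩ := aeval_surjective ha hy b hb p
      refine ⟨⟨weightedHomogeneousComponent a k r,
        weightedHomogeneousComponent_isWeightedHomogeneous k r⟩, ?_⟩
      apply Subtype.ext
      change aeval y (weightedHomogeneousComponent a k r) = p
      rw [← comp_aeval hy, hr]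
      exact IsWeightedHomogeneous.weightedHomogeneousComponent_same hp
    have hinj : Function.Injective E := LinearMap.injective_iff_surjective.2 hsurj
    have h1 : E ⟨weightedHomogeneousComponent a k q,
        weightedHomogeneousComponent_isWeightedHomogeneous k q⟩ = 0 := by
      apply Subtype.ext
      change aeval y (weightedHomogeneousComponent a k q) = 0
      rw [← comp_aeval hy, hq, map_zero]
    have h2 := hinj (h1.trans (map_zero E).symm)
    exact congrArg Subtype.val h2
  classical
  ext u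
  rw [coeff_zero]
  have h1 := congrArg (coeff u) (key (Finsupp.weight a u))
  rw [coeff_weightedHomogeneousComponent, if_pos rfl, coeff_zero] at h1
  exact h1

/-! ### The exponents -/

theorem aeval_monomial_mem {y : Fin n → MvPolynomial (Fin n) ℂ}
    {D : Derivation ℂ (MvPolynomial (Fin n) ℂ) (MvPolynomial (Fin n) ℂ)} {lam : Fin n → ℂ}
    (h : ∀ i, y i ∈ Module.End.maxGenEigenspace
      (D : MvPolynomial (Fin n) ℂ →ₗ[ℂ] MvPolynomial (Fin n) ℂ) (lam i))
    (v : Fin n →₀ ℕ) (c : ℂ) :
    aeval y (monomial v c) ∈ Module.End.maxGenEigenspace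
      (D : MvPolynomial (Fin n) ℂ →ₗ[ℂ] MvPolynomial (Fin n) ℂ) (∑ i, lam i * v i) := by
  rw [aeval_monomial, algebraMap_eq, ← smul_eq_C_mul]
  refine Submodule.smul_mem _ _ ?_
  rw [Finsupp.prod_fintype _ _ (fun i => pow_zero _)]
  exact W.NX.prod_mem_gen D _ fun i _ => W.NX.pow_mem_gen D (h i) _

theorem sum_eq_zero_of_mem_support {y : Fin n → MvPolynomial (Fin n) ℂ}
    (hinj : Function.Injective (aeval y : MvPolynomial (Fin n) ℂ →ₐ[ℂ] MvPolynomial (Fin n) ℂ))
    {D : Derivation ℂ (MvPolynomial (Fin n) ℂ) (MvPolynomial (Fin n) ℂ)} {lam : Fin n → ℂ}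
    (h : ∀ i, y i ∈ Module.End.maxGenEigenspace
      (D : MvPolynomial (Fin n) ℂ →ₗ[ℂ] MvPolynomial (Fin n) ℂ) (lam i))
    {g : MvPolynomial (Fin n) ℂ} (hg : D (aeval y g) = 0) {v : Fin n →₀ ℕ} (hv : v ∈ g.support) :
    ∑ i, lam i * v i = 0 := by
  classical
  by_contra hne
  set E := Module.End.maxGenEigenspace
    (D : MvPolynomial (Fin n) ℂ →ₗ[ℂ] MvPolynomial (Fin n) ℂ) with hE
  set dg : (Fin n →₀ ℕ) → ℂ := fun v => ∑ i, lam i * v i with hdg
  set M : Finset ℂ := insert 0 (g.support.image dg) with hM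
  set F : ℂ → MvPolynomial (Fin n) ℂ := fun μ =>
    ∑ v ∈ g.support.filter (fun v => dg v = μ), monomial v (coeff v g) with hF
  have hfE : aeval y g ∈ E 0 := by
    rw [hE, Module.End.mem_maxGenEigenspace]
    refine ⟨1, ?_⟩
    rw [pow_one, LinearMap.sub_apply, LinearMap.smul_apply, zero_smul, sub_zero,
      Derivation.coeFn_coe, hg]
  have hFE : ∀ μ, aeval y (F μ) ∈ E μ := by
    intro μ
    rw [hF]
    dsimp only
    rw [map_sum]
    refine Submodule.sum_mem _ fun v hv => ?_
    rw [← (Finset.mem_filter.1 hv).2]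
    exact aeval_monomial_mem h v _
  have hsum : ∑ μ ∈ M, aeval y (F μ) = ∑ μ ∈ M, if μ = 0 then aeval y g else 0 := by
    rw [Finset.sum_ite_eq' M 0 (fun _ => aeval y g), if_pos (Finset.mem_insert_self _ _), ← map_sum]
    congr 1
    rw [hF]
    dsimp only
    rw [Finset.sum_fiberwise_of_maps_to (fun v hv => Finset.mem_insert_of_mem
      (Finset.mem_image_of_mem _ hv)), support_sum_monomial_coeff]
  have key := (iSupIndep_iff_finsetSum_eq_imp_eq E).1 (Module.End.independent_maxGenEigenspace _) M
    (fun μ => aeval y (F μ)) (fun μ => if μ = 0 then aeval y g else 0) (by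
      intro μ _
      refine ⟨hFE μ, ?_⟩
      split_ifs with h0
      · rw [h0]
        exact hfE
      · exact Submodule.zero_mem _) hsum (dg v)
    (Finset.mem_insert_of_mem (Finset.mem_image_of_mem _ hv))
  rw [if_neg hne] at key
  have h1 : F (dg v) = 0 := (map_eq_zero_iff _ hinj).1 key
  have h2 : coeff v (F (dg v)) = coeff v g := by
    rw [hF]
    dsimp only
    have hvm : v ∈ g.support.filter (fun u => dg u = dg v) := Finset.mem_filter.2 ⟨hv, rfl⟩
    rw [coeff_sum, Finset.sum_eq_single_of_mem v hvm, coeff_monomial, if_pos rfl]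
    intro u _ huv
    rw [coeff_monomial, if_neg huv]
  rw [h1, coeff_zero] at h2
  exact mem_support_iff.1 hv h2.symm

/-- PROOF (weighted version of `W.exists_weights` of `agW/WX.lean`, which is the case `a = 1`; the
lemmas `W.NX.mul_mem_gen`, `one_mem_gen`, `pow_mem_gen`, `prod_mem_gen`, `exists_int` there are
general). `v` of weight zero with `v f = 0`, `∑ ∂_i v_i ≠ 0` (a constant, because it has weight `0`).
`D = mkDerivation ℂ v` maps the space `V_k` of the polynomials of weight `k` (finite dimensional)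
into itself, and the subspace `M_k` of the decomposable ones (spanned by the monomials of weight `k`
and degree `≥ 2`; equivalently the elements without linear terms) into itself, because all `v_i` are
in the ideal of the variables. For each weight `k` choose in `V_k` generalized eigenvectors of `D`
which map to a basis of `V_k / M_k` (the span of the `X_i`, `a_i = k`): `y_i`, `a_i = k`, with
eigenvalues `lam_i`. `e' = aeval y` is an automorphism of weight zero (triangular: the linear part of
`y` is invertible and block diagonal by weights, the other terms of `y_i` involve only variables of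
smaller weight; inverse by induction on the weight). With `g = e'⁻¹ f` all monomials of `g` satisfy
`∑ lam_i u_i = 0` (`sum_eq_zero_of_mem_support`: monomials in the `y_i` are generalized eigenvectors
for `∑ lam_i u_i`, and `D f = 0`), and `∑ lam_i = trace of the linear part of v = ∑ ∂_i v_i ≠ 0`.
`exists_int`: integers `u_i` with `∑ u_i v_i = 0` on the support and `∑ u_i ≠ 0`; `w_i = u_i + c a_i`,
`D' = c D` with `c` large. -/
theorem exists_weights {f : MvPolynomial (Fin n) ℂ} {a : Fin n → ℕ} {D : ℕ} (ha : ∀ i, 0 < a i)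
    (hD : 0 < D) (hh : f.IsWeightedHomogeneous a D) (h : ¬ NSW f a) :
    ∃ (e : MvPolynomial (Fin n) ℂ ≃ₐ[ℂ] MvPolynomial (Fin n) ℂ) (w : Fin n → ℕ) (D' : ℕ),
      (∀ i, (e (X i)).IsWeightedHomogeneous a (a i)) ∧
      (∀ i, (e.symm (X i)).IsWeightedHomogeneous a (a i)) ∧
      (∀ i, 0 < w i) ∧ 0 < D' ∧ (e f).IsWeightedHomogeneous w D' ∧
      (∑ i, w i) * D ≠ (∑ i, a i) * D' := by
  classical
  unfold NSW at h
  push Not at h
  obtain ⟨v, hv, hvf, hdiv⟩ := h
  set Dv : Derivation ℂ (MvPolynomial (Fin n) ℂ) (MvPolynomial (Fin n) ℂ) :=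
    mkDerivation ℂ v with hDv
  have hDf : Dv f = 0 := by rw [hDv, mkDer_apply, hvf]
  obtain ⟨y, lam, b, hy, hyg, hb⟩ := exists_y ha (D := Dv) (fun k p hp => der_weighted hv hp)
  set T : Module.End ℂ (Fin n → ℂ) := Fintype.linearCombination ℂ (fun i => Lp (v i)) with hT
  have hLD : ∀ p, Lp (Dv p) = T (Lp p) := fun p => Lp_der ha hv p
  have hbT : ∀ i, b i ∈ T.maxGenEigenspace (lam i) := by
    intro i
    rw [hb]
    exact Lp_gen hLD (hyg i)
  have hsurj := aeval_surjective ha hy b hb
  have hinj := aeval_injective ha hy b hb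
  -- the trace
  have htr : ∑ i, lam i ≠ 0 := by
    intro h0
    apply hdiv
    have h6 : ∀ i, pderiv i (v i) = C (Lp (v i) i) := by
      intro i
      have h2 : (pderiv i (v i)).IsWeightedHomogeneous a 0 := (hv i).pderiv (zero_add _)
      ext u
      rw [coeff_C]
      split_ifs with hu
      · rw [← hu, Lp_apply, constantCoeff_eq]
      · by_contra h3
        apply hu
        have h4 := h2 h3
        rw [Finsupp.weight_apply, Finsupp.sum_fintype _ _ (fun i => by simp),
          Finset.sum_eq_zero_iff] at h4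
        ext j
        have h5 := h4 j (Finset.mem_univ j)
        rw [smul_eq_mul, mul_eq_zero] at h5
        rcases h5 with h5 | h5
        · rw [h5, Finsupp.zero_apply]
        · exact absurd h5 (ha j).ne'
    rw [Finset.sum_congr rfl fun i _ => h6 i, ← map_sum]
    have h7 : LinearMap.trace ℂ (Fin n → ℂ) T = ∑ i, Lp (v i) i := by
      rw [LinearMap.trace_eq_matrix_trace ℂ (Pi.basisFun ℂ (Fin n)), Matrix.trace]
      refine Finset.sum_congr rfl fun i _ => ?_
      rw [Matrix.diag_apply, LinearMap.toMatrix_apply, Pi.basisFun_apply, Pi.basisFun_repr, hT,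
        Fintype.linearCombination_apply_single, one_smul]
    rw [← h7, W.NX.trace_eq_sum T b lam hbT, h0, map_zero]
  obtain ⟨u, hu0, hu⟩ := W.NX.exists_int lam htr
  -- the automorphism
  set e' : MvPolynomial (Fin n) ℂ ≃ₐ[ℂ] MvPolynomial (Fin n) ℂ :=
    AlgEquiv.ofBijective (aeval y) ⟨hinj, hsurj⟩ with he'
  have he'a : ∀ p, e' p = aeval y p := fun p => rfl
  have hback : ∀ (k : ℕ) (p : MvPolynomial (Fin n) ℂ), p.IsWeightedHomogeneous a k →
      (e'.symm p).IsWeightedHomogeneous a k := by
    intro k p hp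
    have h1 : aeval y (e'.symm p) = p := by
      rw [← he'a]
      exact AlgEquiv.apply_symm_apply _ _
    have h2 : weightedHomogeneousComponent a k (e'.symm p) = e'.symm p := by
      apply hinj
      rw [← comp_aeval hy, h1]
      exact hp.weightedHomogeneousComponent_same
    rw [← h2]
    exact weightedHomogeneousComponent_isWeightedHomogeneous _ _
  set g := e'.symm f with hg
  have hfg : aeval y g = f := by
    rw [← he'a]
    exact AlgEquiv.apply_symm_apply _ _
  have hsupp : ∀ t ∈ g.support, ∑ i, lam i * t i = 0 := fun t ht =>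
    sum_eq_zero_of_mem_support hinj hyg (by rw [hfg]; exact hDf) ht
  have hdeg : ∀ t ∈ g.support, ∑ i, t i * a i = D := by
    intro t ht
    have h1 := hback D f hh (mem_support_iff.1 ht)
    rw [Finsupp.weight_apply, Finsupp.sum_fintype _ _ (fun i => by simp)] at h1
    simpa using h1
  -- the weights
  set c : ℕ := 1 + ∑ i, (u i).natAbs with hc
  have hcu : ∀ i, 0 < u i + c * a i := by
    intro i
    have h1 : (u i).natAbs ≤ ∑ i, (u i).natAbs :=
      Finset.single_le_sum (f := fun i => (u i).natAbs) (fun _ _ => Nat.zero_le _)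
        (Finset.mem_univ i)
    have h2 : c ≤ c * a i := Nat.le_mul_of_pos_right _ (ha i)
    have h3 : (c : ℤ) ≤ (c : ℤ) * (a i : ℤ) := by exact_mod_cast h2
    omega
  have hw : ∀ i, (((u i + c * a i).toNat : ℕ) : ℤ) = u i + c * a i := fun i =>
    Int.toNat_of_nonneg (hcu i).le
  refine ⟨e'.symm, fun i => (u i + c * a i).toNat, c * D, fun i => ?_, fun i => ?_, fun i => ?_,
    Nat.mul_pos (by omega) hD, ?_, ?_⟩
  · exact hback _ _ (isWeightedHomogeneous_X _ _ i)
  · rw [AlgEquiv.symm_symm, he'a, aeval_X]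
    exact hy i
  · exact Int.pos_iff_toNat_pos.1 (hcu i)
  · intro t ht
    have ht' : t ∈ g.support := mem_support_iff.2 ht
    have h1 := hu (fun i => t i) (hsupp t ht')
    have h2 := hdeg t ht'
    rw [Finsupp.weight_apply, Finsupp.sum_fintype _ _ (fun i => by simp)]
    have h3 : ((∑ i, t i • (u i + c * a i).toNat : ℕ) : ℤ) = ((c * D : ℕ) : ℤ) := by
      push_cast
      have h4 : ∀ i, (t i : ℤ) * (((u i + c * a i).toNat : ℕ) : ℤ) =
          u i * (t i : ℤ) + c * (t i * a i) := by
        intro i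
        rw [hw]
        ring
      simp only [smul_eq_mul, Nat.cast_mul]
      rw [Finset.sum_congr rfl fun i _ => h4 i, Finset.sum_add_distrib, h1, zero_add,
        ← Finset.mul_sum, ← h2]
      push_cast
      rfl
    exact_mod_cast h3
  · intro h0
    have h1 : (((∑ i, (u i + c * a i).toNat) * D : ℕ) : ℤ) = (((∑ i, a i) * (c * D) : ℕ) : ℤ) := by
      rw [h0]
    push_cast at h1
    rw [Finset.sum_congr rfl fun i _ => hw i, Finset.sum_add_distrib, ← Finset.mul_sum] at h1
    have h2 : (∑ i, u i) * (D : ℤ) = 0 := by linear_combination h1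
    rcases mul_eq_zero.1 h2 with h3 | h3
    · exact hu0 h3
    · exact hD.ne' (by exact_mod_cast h3)

end TW

end MPb07157
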