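import Pool.Agent.Lib.MP_b07157_agW.WZ
import Pool.Agent.Lib.MP_b07157_agYC.Core
import Mathlib.RingTheory.PowerSeries.Expand

/-!
# The zeta function of a polynomial which is weighted homogeneous for two systems of weights
-/

noncomputable section

namespace MPb07157

open MvPolynomial

namespace TW

open YV YW YC W

variable {n : ℕ}

theorem coeff_zero_aeval (g : MvPolynomial (Fin n) ℂ) (y : Fin n → PowerSeries ℂ) :
    PowerSeries.coeff 0 (aeval y g : PowerSeries ℂ) =
      eval (fun i => PowerSeries.coeff 0 (y i)) g := by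
  simp only [PowerSeries.coeff_zero_eq_constantCoeff]
  induction g using MvPolynomial.induction_on with
  | C a =>
    rw [aeval_C, eval_C]
    exact PowerSeries.constantCoeff_C a
  | add p q hp hq => rw [map_add, map_add, map_add, hp, hq]
  | mul_X p i hp => rw [map_mul, map_mul, map_mul, hp, aeval_X, eval_X]

theorem order_eq_zero {g : MvPolynomial (Fin n) ℂ} {y : Fin n → PowerSeries ℂ}
    (h : eval (fun i => PowerSeries.coeff 0 (y i)) g ≠ 0) :
    (aeval y g : PowerSeries ℂ).order = 0 := by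
  rw [← coeff_zero_aeval] at h
  have h1 := PowerSeries.order_le 0 h
  exact le_antisymm (by exact_mod_cast h1) bot_le

theorem aeval_expand {N : ℕ} (hN : N ≠ 0) (g : MvPolynomial (Fin n) ℂ)
    (x : Fin n → PowerSeries ℂ) :
    (aeval (fun i => PowerSeries.expand N hN (x i)) g : PowerSeries ℂ) =
      PowerSeries.expand N hN (aeval x g) :=
  (MvPolynomial.comp_aeval_apply (f := x) (PowerSeries.expand N hN) g).symm

/-- The gradient has order at most `D` along the arcs which start at the origin and which are not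
divisible by `t^a`. -/
theorem order_le_of_frac {f : MvPolynomial (Fin n) ℂ} {a : Fin n → ℕ} {D : ℕ} (H : WHom f a D)
    {x : Fin n → PowerSeries ℂ} (h0 : ∀ i, PowerSeries.coeff 0 (x i) = 0)
    (h1 : ∃ i, (x i).order < (a i : ℕ∞)) :
    ∃ j, (aeval x (pderiv j f) : PowerSeries ℂ).order ≤ (D : ℕ∞) := by
  classical
  obtain ⟨N, hN0, haN⟩ : ∃ N : ℕ, 0 < N ∧ ∀ i, a i ∣ N :=
    ⟨∏ i, a i, Finset.prod_pos fun i _ => H.ha i, fun i =>
      Finset.dvd_prod_of_mem a (Finset.mem_univ i)⟩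
  have hN : N ≠ 0 := hN0.ne'
  have haN' : ∀ i, a i ≤ N := fun i => Nat.le_of_dvd hN0 (haN i)
  set z : Fin n → PowerSeries ℂ := fun i => PowerSeries.expand N hN (x i) with hz
  have hoz : ∀ i, (z i).order = N • (x i).order := fun i => PowerSeries.order_expand N hN (x i)
  have hP : ∃ R : ℕ, ∃ i, ¬ (PowerSeries.X : PowerSeries ℂ) ^ ((R + 1) * a i) ∣ z i := by
    refine ⟨N - 1, ?_⟩
    obtain ⟨i, hi⟩ := h1
    refine ⟨i, fun hdv => ?_⟩
    obtain ⟨m, hm⟩ := ENat.ne_top_iff_exists.1 (ne_top_of_lt hi)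
    rw [← hm] at hi
    have hi' : m < a i := by exact_mod_cast hi
    rw [PowerSeries.X_pow_dvd_iff] at hdv
    have h2 := PowerSeries.nat_le_order _ _ hdv
    rw [hoz, ← hm, nsmul_eq_mul] at h2
    have h3 : (N - 1 + 1) * a i ≤ N * m := by exact_mod_cast h2
    rw [Nat.sub_add_cancel hN0] at h3
    exact absurd (Nat.le_of_mul_le_mul_left h3 hN0) (by omega)
  obtain ⟨R, ⟨i₁, hi₁⟩, hRmin⟩ : ∃ R : ℕ,
      (∃ i, ¬ (PowerSeries.X : PowerSeries ℂ) ^ ((R + 1) * a i) ∣ z i) ∧
      ∀ R' < R, ¬ ∃ i, ¬ (PowerSeries.X : PowerSeries ℂ) ^ ((R' + 1) * a i) ∣ z i :=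
    ⟨Nat.find hP, Nat.find_spec hP, fun R' h => Nat.find_min hP h⟩
  have hRN : R < N := by
    by_contra hcon
    push Not at hcon
    apply hRmin (N - 1) (by omega)
    obtain ⟨i, hi⟩ := h1
    refine ⟨i, fun hdv => ?_⟩
    obtain ⟨m, hm⟩ := ENat.ne_top_iff_exists.1 (ne_top_of_lt hi)
    rw [← hm] at hi
    have hi' : m < a i := by exact_mod_cast hi
    rw [PowerSeries.X_pow_dvd_iff] at hdv
    have h2 := PowerSeries.nat_le_order _ _ hdv
    rw [hoz, ← hm, nsmul_eq_mul] at h2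
    have h3 : (N - 1 + 1) * a i ≤ N * m := by exact_mod_cast h2
    rw [Nat.sub_add_cancel hN0] at h3
    exact absurd (Nat.le_of_mul_le_mul_left h3 hN0) (by omega)
  have hR0 : 0 < R := by
    rcases Nat.eq_zero_or_pos R with h2 | h2
    · exfalso
      subst h2
      apply hi₁
      have h3 : (PowerSeries.X : PowerSeries ℂ) ∣ x i₁ := by
        rw [PowerSeries.X_dvd_iff, ← PowerSeries.coeff_zero_eq_constantCoeff_apply]
        exact h0 i₁
      obtain ⟨x', hx'⟩ := h3
      have h4 : z i₁ = PowerSeries.X ^ N * PowerSeries.expand N hN x' := by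
        simp only [hz]
        rw [hx', map_mul, PowerSeries.expand_X]
      rw [h4, zero_add, one_mul]
      exact (pow_dvd_pow _ (haN' i₁)).mul_right _
    · exact h2
  have hdiv : ∀ i, (PowerSeries.X : PowerSeries ℂ) ^ (R * a i) ∣ z i := by
    intro i
    have h2 := hRmin (R - 1) (by omega)
    push Not at h2
    have h3 := h2 i
    rwa [Nat.sub_add_cancel hR0] at h3
  choose y hy using hdiv
  set c : Fin n → ℂ := fun i => PowerSeries.coeff 0 (y i) with hc
  have hcz : ∀ i, PowerSeries.coeff (R * a i) (z i) = c i := by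
    intro i
    rw [hy i, PowerSeries.coeff_X_pow_mul', if_pos le_rfl, Nat.sub_self]
  have hcN : ∀ i, c i ≠ 0 → N ∣ R * a i := by
    intro i hi
    by_contra hcon
    apply hi
    rw [← hcz i]
    exact PowerSeries.coeff_expand_of_not_dvd N hN _ hcon
  have hc0 : c i₁ ≠ 0 := by
    have hzi : z i₁ ≠ 0 := fun h => hi₁ (h ▸ dvd_zero _)
    have hxi : x i₁ ≠ 0 := by
      intro h
      apply hzi
      simp only [hz]
      rw [h, map_zero]
    obtain ⟨m, hm⟩ := ENat.ne_top_iff_exists.1 (mt PowerSeries.order_eq_top.1 hxi)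
    have h2 := PowerSeries.nat_le_order _ _ (PowerSeries.X_pow_dvd_iff.1 ⟨y i₁, hy i₁⟩)
    rw [hoz, ← hm, nsmul_eq_mul] at h2
    have h3 : R * a i₁ ≤ N * m := by exact_mod_cast h2
    have h4 : N * m < (R + 1) * a i₁ := by
      by_contra hcon
      push Not at hcon
      apply hi₁
      rw [PowerSeries.X_pow_dvd_iff]
      intro k hk
      refine PowerSeries.coeff_of_lt_order k ?_
      rw [hoz, ← hm, nsmul_eq_mul]
      exact_mod_cast hk.trans_le hcon
    obtain ⟨N', hN'⟩ := haN i₁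
    have h5 : N * m = R * a i₁ := by
      have h6 : N * m = a i₁ * (N' * m) := by rw [hN']; ring
      rw [h6] at h3 h4 ⊢
      have h7 : R ≤ N' * m := Nat.le_of_mul_le_mul_left (by rw [mul_comm]; exact h3) (H.ha i₁)
      have h8 : N' * m < R + 1 := Nat.lt_of_mul_lt_mul_left (a := a i₁) (by
        rw [mul_comm (a i₁) (R + 1)]; exact h4)
      have h9 : N' * m = R := by omega
      rw [h9, mul_comm]
    have h6 : (z i₁).order = ((R * a i₁ : ℕ) : ℕ∞) := by
      rw [hoz, ← hm, nsmul_eq_mul, ← h5]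
      push_cast
      rfl
    rw [← hcz]
    exact (PowerSeries.order_eq_nat.1 h6).1
  have hncr : ∃ j, eval c (pderiv j f) ≠ 0 := by
    by_contra hcon
    push Not at hcon
    have hs : SingPt f c := ⟨fun h => hc0 (congrFun h i₁), hcon⟩
    have hg0 : 0 < Nat.gcd N R := Nat.gcd_pos_of_pos_left _ hN0
    obtain ⟨N', R', hco, hN', hR'⟩ := Nat.exists_coprime N R
    have h2 : N' = 1 := by
      refine H.free c hs N' fun i hi => ?_
      have h3 := hcN i hi
      rw [hN'] at h3
      conv at h3 => rhs; rw [hR']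
      have h4 : N' * Nat.gcd N R ∣ (R' * a i) * Nat.gcd N R := by
        convert h3 using 1
        ring
      exact hco.dvd_of_dvd_mul_left (Nat.dvd_of_mul_dvd_mul_right hg0 h4)
    rw [h2, one_mul] at hN'
    have h3 : N ∣ R := by
      rw [hN']
      exact Nat.gcd_dvd_right _ _
    exact absurd (Nat.le_of_dvd hR0 h3) (by omega)
  obtain ⟨j, hj⟩ := hncr
  refine ⟨j, ?_⟩
  have h2 : (pderiv j f).IsWeightedHomogeneous a (D - a j) := by
    refine IsWeightedHomogeneous.pderiv H.hom ?_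
    have := H.haD j
    omega
  have h3 : (PowerSeries.expand N hN (aeval x (pderiv j f)) : PowerSeries ℂ) =
      (PowerSeries.X ^ R) ^ (D - a j) * aeval y (pderiv j f) := by
    have e5 : z = fun i => (PowerSeries.X ^ R) ^ a i * y i := by
      funext i
      rw [← pow_mul]
      exact hy i
    rw [← aeval_expand, ← WWaux.aeval_mul_weighted h2, ← e5]
  have h4 := congrArg PowerSeries.order h3
  rw [PowerSeries.order_expand, PowerSeries.order_mul, order_eq_zero hj, add_zero, ← pow_mul,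
    PowerSeries.order_X_pow] at h4
  generalize (aeval x (pderiv j f) : PowerSeries ℂ).order = o at h4 ⊢
  induction o using ENat.recTopCoe with
  | top =>
    exfalso
    rw [nsmul_eq_mul, ENat.mul_top (by exact_mod_cast hN)] at h4
    exact ENat.top_ne_natCast _ h4
  | coe m =>
    rw [nsmul_eq_mul] at h4
    have h5 : N * m = R * (D - a j) := by exact_mod_cast h4
    have h6 : N * m ≤ N * D := by
      rw [h5]
      exact Nat.mul_le_mul hRN.le (Nat.sub_le _ _)
    exact_mod_cast Nat.le_of_mul_le_mul_left h6 hN0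

/-! ### Arcs which start near a coordinate hyperplane -/

/-- The product of `X_i` and binomials which vanish on the critical orbits outside `X_i = 0`. -/
def GP (a : Fin n → ℕ) (B : Finset (Fin n → ℂ)) (i l : Fin n) : MvPolynomial (Fin n) ℂ :=
  X i * ∏ b ∈ B.filter (fun b => b i ≠ 0),
    (C (b i ^ a l) * X l ^ a i - C (b l ^ a i) * X i ^ a l)

theorem GP_mem {f : MvPolynomial (Fin n) ℂ} {a : Fin n → ℕ} (B : Finset (Fin n → ℂ))
    (hcov : ∀ p ∈ Cr f, ∃ b ∈ B, ∃ t : ℂ, p = sc a t b) (i l : Fin n) :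
    GP a B i l ∈ (Ideal.span (Set.range fun j => pderiv j f)).radical := by
  classical
  rw [← vanishingIdeal_zeroLocus_eq_radical (K := ℂ), mem_vanishingIdeal_iff]
  intro p hp
  rw [zeroLocus_span] at hp
  have hp' : ∀ j, eval p (pderiv j f) = 0 := fun j => by
    have := hp (pderiv j f) ⟨j, rfl⟩
    rwa [aeval_eq_eval] at this
  rw [aeval_eq_eval]
  unfold GP
  rw [map_mul, eval_X]
  by_cases h0 : p = 0
  · rw [h0, Pi.zero_apply, zero_mul]
  · obtain ⟨b, hb, t, ht⟩ := hcov p ⟨h0, hp'⟩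
    by_cases hi : b i = 0
    · have h1 : p i = 0 := by
        rw [ht]
        simp only [sc]
        rw [hi, mul_zero]
      rw [h1, zero_mul]
    · refine mul_eq_zero_of_right _ ?_
      rw [map_prod]
      refine Finset.prod_eq_zero (Finset.mem_filter.2 ⟨hb, hi⟩) ?_
      simp only [map_sub, map_mul, map_pow, eval_X, eval_C]
      rw [ht]
      simp only [sc]
      rw [mul_pow, mul_pow, ← pow_mul, ← pow_mul, mul_comm (a i) (a l)]
      ring

theorem exists_bound_at {f : MvPolynomial (Fin n) ℂ} {a : Fin n → ℕ} (ha : ∀ i, 0 < a i)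
    (B : Finset (Fin n → ℂ)) (hcov : ∀ p ∈ Cr f, ∃ b ∈ B, ∃ t : ℂ, p = sc a t b)
    (i l : Fin n) (β : ℕ) :
    ∃ E : ℕ, ∀ x : Fin n → PowerSeries ℂ, PowerSeries.coeff 0 (x i) = 0 →
      PowerSeries.coeff 0 (x l) ≠ 0 → (x i).order ≤ (β : ℕ∞) →
      ∃ j, (aeval x (pderiv j f) : PowerSeries ℂ).order ≤ (E : ℕ∞) := by
  classical
  obtain ⟨M, hM⟩ := GP_mem B hcov i l
  refine ⟨M * β, fun x hxi hxl hx => ?_⟩
  by_contra hcon
  push Not at hcon
  have h1 : (aeval x (GP a B i l) : PowerSeries ℂ).order ≤ (β : ℕ∞) := by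
    unfold GP
    rw [map_mul, aeval_X, PowerSeries.order_mul, order_eq_zero, add_zero]
    · exact hx
    · rw [map_prod]
      refine Finset.prod_ne_zero_iff.2 fun b hb => ?_
      simp only [map_sub, map_mul, map_pow, eval_X, eval_C]
      rw [hxi, zero_pow (ha l).ne', mul_zero, sub_zero]
      exact mul_ne_zero (pow_ne_zero _ (Finset.mem_filter.1 hb).2) (pow_ne_zero _ hxl)
  have h2 : ((aeval x (GP a B i l) : PowerSeries ℂ) ^ M).order ≤ ((M * β : ℕ) : ℕ∞) := by
    rw [PowerSeries.order_pow, nsmul_eq_mul, Nat.cast_mul]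
    gcongr
  have h3 : Ideal.span (Set.range fun j => pderiv j f) ≤
      Ideal.comap (aeval x) (Ideal.span {(PowerSeries.X : PowerSeries ℂ) ^ (M * β + 1)}) := by
    rw [Ideal.span_le]
    rintro _ ⟨j, rfl⟩
    rw [SetLike.mem_coe, Ideal.mem_comap, Ideal.mem_span_singleton, PowerSeries.X_pow_dvd_iff]
    intro m hm
    refine PowerSeries.coeff_of_lt_order m (lt_of_le_of_lt ?_ (hcon j))
    exact_mod_cast Nat.lt_succ_iff.1 hm
  have h4 := h3 hM
  rw [Ideal.mem_comap, map_pow, Ideal.mem_span_singleton, PowerSeries.X_pow_dvd_iff] at h4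
  have h5 := PowerSeries.nat_le_order _ _ h4
  have h6 := h5.trans h2
  have h7 : M * β + 1 ≤ M * β := by exact_mod_cast h6
  omega

/-! ### Arcs with given starting points -/

theorem isConstr_startSet (m : ℕ) {V : Set (Fin n → ℂ)} (hV : IsConstr V) :
    IsConstr {ξ : Fin n × Fin (m + 1) → ℂ | (fun i => ξ (i, 0)) ∈ V} :=
  hV.reindex (fun i => ((i, 0) : Fin n × Fin (m + 1)))

theorem ser_start (f : MvPolynomial (Fin n) ℂ) (m : ℕ) {V : Set (Fin n → ℂ)} (hV : IsConstr V) :
    ser f (m + 1) {ξ | (fun i => ξ (i, 0)) ∈ V} = seriesAt f V := by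
  have e1 : ser f (m + 1) {ξ | (fun i => ξ (i, 0)) ∈ V} =
      ser f 1 {ξ | (fun i => ξ (i, 0)) ∈ V} := by
    rw [ser_level f (Nat.le_add_left 1 m) (isConstr_startSet 0 hV)]
    congr 1
  rw [e1]
  ext k
  rw [coeff_ser f (isConstr_startSet 0 hV) (N := k + 1) (by omega) (by omega)]
  unfold seriesAt nrm
  rw [PowerSeries.coeff_mk]
  congr 2
  ext γ
  simp only [cyl, AtW, Set.mem_inter_iff, Set.mem_ofPred_eq]
  refine and_congr_right fun _ => ?_
  rw [tr_arc (by omega)]
  rfl

/-- The arcs which start at the points which are not critical. -/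
theorem seriesAt_mem_of_smooth {f : MvPolynomial (Fin n) ℂ} {V : Set (Fin n → ℂ)}
    (hV : IsConstr V) (h : ∀ p ∈ V, ∃ j, eval p (pderiv j f) ≠ 0) {s₀ : ℚ} (hs : s₀ ≠ -1) :
    seriesAt f V ∈ regularAt s₀ := by
  rw [← ser_start f 0 hV]
  refine ser_mem_of_bounded (isConstr_startSet 0 hV) (E := 0) (fun x hx => ?_) hs
  obtain ⟨j, hj⟩ := h _ hx
  exact ⟨j, (order_eq_zero (g := pderiv j f) (y := x) hj).le⟩

/-- The arcs which start in a set which is invariant under the action of `ℂ^*`. -/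
theorem seriesAt_mem_of_inv {f : MvPolynomial (Fin n) ℂ} {a : Fin n → ℕ} {D : ℕ} (H : WHom f a D)
    (B : Finset (Fin n → ℂ)) (hcov : ∀ p ∈ Cr f, ∃ b ∈ B, ∃ t : ℂ, p = sc a t b) {s₀ : ℚ}
    (hs : s₀ ≠ -1) (hreg : ∀ b ∈ B, b ∈ Cr f → Zmot0 (translate b f) ∈ regularAt s₀)
    {V : Set (Fin n → ℂ)} (hV : IsConstr V) (h0 : (0 : Fin n → ℂ) ∉ V)
    (hinv : ∀ p t, t ≠ 0 → p ∈ V → sc a t p ∈ V) : seriesAt f V ∈ regularAt s₀ := by
  classical
  set S : Finset (Set (Fin n → ℂ)) := (B.filter fun b => b ∈ Cr f ∧ b ∈ V).image (orb a) with hS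
  have hSm : ∀ O ∈ S, ∃ q ∈ B, q ∈ Cr f ∧ q ∈ V ∧ O = orb a q := by
    intro O hO
    obtain ⟨q, hq, rfl⟩ := Finset.mem_image.1 hO
    exact ⟨q, (Finset.mem_filter.1 hq).1, (Finset.mem_filter.1 hq).2.1,
      (Finset.mem_filter.1 hq).2.2, rfl⟩
  have hSc : ∀ O ∈ S, IsConstr O := by
    intro O hO
    obtain ⟨q, -, hq, -, rfl⟩ := hSm O hO
    exact isConstr_orb H.ha hq.1
  have hA : V ∩ Cr f = ⋃ O ∈ S, O := by
    ext p
    simp only [Set.mem_inter_iff, Set.mem_iUnion, exists_prop]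
    constructor
    · rintro ⟨hpV, hp⟩
      obtain ⟨b, hb, t, ht⟩ := hcov p hp
      have ht0 : t ≠ 0 := by
        rintro rfl
        apply hp.1
        rw [ht]
        funext i
        simp [sc, zero_pow (H.ha i).ne']
      have hpb : p ∈ orb a b := ⟨t, ht0, ht⟩
      obtain ⟨u, hu0, hu⟩ := rw_orb_symm hpb
      refine ⟨orb a b, Finset.mem_image.2 ⟨b, Finset.mem_filter.2 ⟨hb, ?_, ?_⟩, rfl⟩, hpb⟩
      · exact crit_sc H hp (rw_orb_symm hpb)
      · rw [hu]
        exact hinv p u hu0 hpV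
    · rintro ⟨O, hO, hp⟩
      obtain ⟨q, -, hq, hqV, rfl⟩ := hSm O hO
      refine ⟨?_, crit_sc H hq hp⟩
      obtain ⟨t, ht, rfl⟩ := hp
      exact hinv q t ht hqV
  have hc1 : IsConstr (V ∩ Cr f) := hV.inter (isConstr_Cr f)
  have hc2 : IsConstr (V ∩ (Cr f)ᶜ) := hV.inter (isConstr_Cr f).compl
  have e0 : V = (V ∩ Cr f) ∪ (V ∩ (Cr f)ᶜ) := (Set.inter_union_compl V (Cr f)).symm
  have hd : Disjoint (V ∩ Cr f) (V ∩ (Cr f)ᶜ) :=
    (disjoint_compl_right (a := Cr f)).mono Set.inter_subset_right Set.inter_subset_right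
  rw [e0, seriesAt_union f hc1 hc2 hd]
  refine add_mem ?_ (seriesAt_mem_of_smooth hc2 (fun p hp => ?_) hs)
  · rw [hA, seriesAt_biUnion f S (fun O => O) hSc (fun O hO O' hO' hne => by
        obtain ⟨q, -, -, -, rfl⟩ := hSm O hO
        obtain ⟨q', -, -, -, rfl⟩ := hSm O' hO'
        exact (orb_eq_or_disjoint a q q').resolve_left hne)]
    refine sum_mem fun O hO => ?_
    obtain ⟨q, hqB, hq, -, rfl⟩ := hSm O hO
    rw [seriesAt_orb H hq]
    exact mul_mem (C_mem_regularAt s₀ _) (hreg q hqB hq)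
  · by_contra hcon
    push Not at hcon
    refine hp.2 ⟨?_, hcon⟩
    rintro rfl
    exact h0 hp.1

/-! ### The main theorem -/

/-- A weighted homogeneous polynomial with finitely many critical orbits, with trivial isotropy
groups, which is also weighted homogeneous for other weights. -/
theorem zmot_mem_of_two {f : MvPolynomial (Fin n) ℂ} {a : Fin n → ℕ} {D : ℕ} (H : WHom f a D)
    {w : Fin n → ℕ} {D' : ℕ} (hD' : 0 < D') (hfw : f.IsWeightedHomogeneous w D')
    (B : Finset (Fin n → ℂ)) (hcov : ∀ p ∈ Cr f, ∃ b ∈ B, ∃ t : ℂ, p = sc a t b) {s₀ : ℚ}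
    (hs : s₀ ≠ -1) (hsw : ((∑ i, w i : ℕ) : ℚ) / D' ≠ -s₀)
    (hreg : ∀ b ∈ B, b ∈ Cr f → Zmot0 (translate b f) ∈ regularAt s₀) :
    Zmot f ∈ regularAt s₀ := by
  classical
  set M : ℕ := ∑ i, (w i + a i) with hM
  have hwa : ∀ i, w i + a i ≤ M := fun i =>
    Finset.single_le_sum (f := fun i => w i + a i) (fun _ _ => Nat.zero_le _) (Finset.mem_univ i)
  set G : ℕ → Set (Fin n × Fin (M + 1) → ℂ) := fun k =>
    {ξ | ∃ q ∈ (Finset.univ : Finset (Fin n × Fin (M + 1))),
      (q.2 : ℕ) + k * a q.1 < w q.1 ∧ ξ q ≠ 0} with hG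
  have hne : ∀ q : Fin n × Fin (M + 1), IsConstr {ξ : Fin n × Fin (M + 1) → ℂ | ξ q ≠ 0} := by
    intro q
    have := isConstr_ne_zero (X q : MvPolynomial (Fin n × Fin (M + 1)) ℂ)
    simpa using this
  have hze : ∀ q : Fin n × Fin (M + 1), IsConstr {ξ : Fin n × Fin (M + 1) → ℂ | ξ q = 0} := by
    intro q
    have := isConstr_eq_zero (X q : MvPolynomial (Fin n × Fin (M + 1)) ℂ)
    simpa using this
  have hGc : ∀ k, IsConstr (G k) := fun k =>
    isConstr_exists_mem _ _ fun q _ => isConstr_setOf_and (isConstr_const _) (hne q)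
  -- the three parts
  set ST : Set (Fin n × Fin (M + 1) → ℂ) := {ξ | ∃ i ∈ (Finset.univ : Finset (Fin n)),
    ξ (i, 0) ≠ 0} with hST
  have hSTc : IsConstr ST := isConstr_exists_mem _ _ fun i _ => hne (i, 0)
  set DV : Set (Fin n × Fin (M + 1) → ℂ) := {ξ | ∀ q ∈ (Finset.univ :
    Finset (Fin n × Fin (M + 1))), (q.2 : ℕ) < a q.1 → ξ q = 0} with hDV
  have hDVc : IsConstr DV := isConstr_forall_mem _ _ fun q _ =>
    isConstr_setOf_imp (isConstr_const _) (hze q)
  have hdis : Disjoint ST DV := by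
    rw [Set.disjoint_left]
    rintro ξ ⟨i, -, h1⟩ h2
    exact h1 (h2 (i, 0) (Finset.mem_univ _) (H.ha i))
  have key : ∀ j k : ℕ, M + 1 ≤ k + j → ser f (M + 1) (G k) ∈ regularAt s₀ := by
    intro j
    induction j with
    | zero =>
      intro k hk
      have h1 : G k = ∅ := by
        ext ξ
        simp only [hG, Set.mem_ofPred_eq, Set.mem_empty_iff_false, iff_false]
        rintro ⟨q, -, h1, -⟩
        have h2 := hwa q.1
        have h3 : k ≤ k * a q.1 := Nat.le_mul_of_pos_right _ (H.ha q.1)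
        omega
      rw [h1, ser_empty]
      exact zero_mem _
    | succ j ih =>
      intro k hk
      -- the arcs which do not start at the origin
      set U : Set (Fin n → ℂ) := {p | ∃ i ∈ (Finset.univ : Finset (Fin n)),
        k * a i < w i ∧ p i ≠ 0} with hU
      have hUc : IsConstr U := isConstr_exists_mem _ _ fun i _ =>
        isConstr_setOf_and (isConstr_const _) (by
          have := isConstr_ne_zero (X i : MvPolynomial (Fin n) ℂ)
          simpa using this)
      have hT1 : ser f (M + 1) {ξ | (fun i => ξ (i, 0)) ∈ U} ∈ regularAt s₀ := by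
        rw [ser_start f M hUc]
        refine seriesAt_mem_of_inv H B hcov hs hreg hUc ?_ ?_
        · rintro ⟨i, -, -, h⟩
          exact h rfl
        · rintro p t ht ⟨i, hi, h1, h2⟩
          exact ⟨i, hi, h1, mul_ne_zero (pow_ne_zero _ ht) h2⟩
      have hT1c := isConstr_startSet M hUc
      have hA1c : IsConstr (G k ∩ ST) := (hGc k).inter hSTc
      have hT2 : ser f (M + 1) ((G k ∩ ST) \ {ξ | (fun i => ξ (i, 0)) ∈ U}) ∈ regularAt s₀ := by
        choose E hE using fun i l => exists_bound_at (f := f) H.ha B hcov i l (M + 1)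
        refine ser_mem_of_bounded (hA1c.diff hT1c)
          (E := Finset.univ.sup fun p : Fin n × Fin n => E p.1 p.2) (fun x hx => ?_) hs
        obtain ⟨⟨⟨q, -, hq1, hq2⟩, ⟨l, -, hl⟩⟩, hxU⟩ := hx
        have h1 : PowerSeries.coeff 0 (x q.1) = 0 := by
          by_contra hcon
          refine hxU ⟨q.1, Finset.mem_univ _, by omega, hcon⟩
        have h2 : (x q.1).order ≤ ((M + 1 : ℕ) : ℕ∞) := by
          refine (PowerSeries.order_le (q.2 : ℕ) hq2).trans ?_
          exact_mod_cast q.2.2.le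
        obtain ⟨j', hj'⟩ := hE q.1 l x h1 hl h2
        refine ⟨j', hj'.trans ?_⟩
        exact_mod_cast Finset.le_sup (f := fun p : Fin n × Fin n => E p.1 p.2)
          (Finset.mem_univ (q.1, l))
      have hA1 : ser f (M + 1) (G k ∩ ST) ∈ regularAt s₀ := by
        have e1 : G k ∩ ST = {ξ | (fun i => ξ (i, 0)) ∈ U} ∪
            ((G k ∩ ST) \ {ξ | (fun i => ξ (i, 0)) ∈ U}) := by
          rw [Set.union_sdiff_cancel]
          rintro ξ ⟨i, -, h1, h2⟩
          exact ⟨⟨(i, 0), Finset.mem_univ _, by simpa using h1, h2⟩, i, Finset.mem_univ _, h2⟩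
        rw [e1, ser_union f hT1c (hA1c.diff hT1c) Set.disjoint_sdiff_right]
        exact add_mem hT1 hT2
      -- the arcs which start at the origin and are not divisible
      have hA2c : IsConstr (G k \ (ST ∪ DV)) := (hGc k).diff (hSTc.union hDVc)
      have hA2 : ser f (M + 1) (G k \ (ST ∪ DV)) ∈ regularAt s₀ := by
        refine ser_mem_of_bounded hA2c (E := D) (fun x hx => ?_) hs
        have h1 : ∀ i, PowerSeries.coeff 0 (x i) = 0 := by
          intro i
          by_contra hcon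
          exact hx.2 (Or.inl ⟨i, Finset.mem_univ _, hcon⟩)
        refine order_le_of_frac H h1 ?_
        by_contra hcon
        push Not at hcon
        refine hx.2 (Or.inr fun q _ hq => ?_)
        refine PowerSeries.coeff_of_lt_order (q.2 : ℕ) (lt_of_lt_of_le ?_ (hcon q.1))
        exact_mod_cast hq
      -- the divisible arcs
      have e2 : {ξ : Fin n × Fin (M + 1) → ℂ | upw a ξ ∈ G k} = G (k + 1) := by
        ext ξ
        simp only [hG, Set.mem_ofPred_eq, Finset.mem_univ, true_and, upw]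
        constructor
        · rintro ⟨q, h1, h2⟩
          have h3 : a q.1 ≤ (q.2 : ℕ) := by
            by_contra h
            rw [if_neg h] at h2
            exact h2 rfl
          rw [if_pos h3] at h2
          refine ⟨_, ?_, h2⟩
          simp only
          rw [Nat.succ_mul]
          omega
        · rintro ⟨q, h1, h2⟩
          have h4 := hwa q.1
          rw [Nat.succ_mul] at h1
          refine ⟨(q.1, ⟨(q.2 : ℕ) + a q.1, by omega⟩), by simp only; omega, ?_⟩
          simp only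
          rw [if_pos (by omega)]
          have h5 : (⟨(q.2 : ℕ) + a q.1 - a q.1, (Nat.sub_le _ _).trans_lt (by omega)⟩ :
              Fin (M + 1)) = q.2 := Fin.ext (Nat.add_sub_cancel _ _)
          rw [h5]
          exact h2
      have e3 : DV ∩ G k = {ξ | (∀ q : Fin n × Fin (M + 1), (q.2 : ℕ) < a q.1 → ξ q = 0) ∧
          ξ ∈ G k} := by
        ext ξ
        simp only [hDV, Set.mem_inter_iff, Set.mem_ofPred_eq, Finset.mem_univ, true_imp_iff]
      have hA3 : ser f (M + 1) (DV ∩ G k) ∈ regularAt s₀ := by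
        rw [e3, ser_weights H.hom (fun i => by have := hwa i; omega) (hGc k), e2]
        exact mul_mem (C_mem_regularAt s₀ _) (mul_mem (pow_mem (X_mem_regularAt s₀) D)
          (ih (k + 1) (by omega)))
      have e4 : G k = (G k ∩ ST) ∪ ((G k \ (ST ∪ DV)) ∪ (DV ∩ G k)) := by
        ext ξ
        simp only [Set.mem_union, Set.mem_inter_iff, Set.mem_sdiff]
        tauto
      rw [e4, ser_union f hA1c (hA2c.union (hDVc.inter (hGc k))),
        ser_union f hA2c (hDVc.inter (hGc k))]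
      · exact add_mem hA1 (add_mem hA2 hA3)
      · rw [Set.disjoint_left]
        rintro ξ ⟨-, h1⟩ ⟨h2, -⟩
        exact h1 (Or.inr h2)
      · rw [Set.disjoint_left]
        rintro ξ ⟨-, h1⟩ (⟨-, h2⟩ | ⟨h2, -⟩)
        · exact h2 (Or.inl h1)
        · exact Set.disjoint_left.1 hdis h1 h2
  have h0 := key (M + 1) 0 (by omega)
  have hc3 : IsConstr {ξ : Fin n × Fin (M + 1) → ℂ |
      (∀ q : Fin n × Fin (M + 1), (q.2 : ℕ) < w q.1 → ξ q = 0) ∧
        ξ ∈ (Set.univ : Set (Fin n × Fin (M + 1) → ℂ))} := by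
    have h1 := isConstr_setOf_and (isConstr_forall_mem (Finset.univ :
      Finset (Fin n × Fin (M + 1))) (fun q ξ => (q.2 : ℕ) < w q.1 → ξ q = 0)
      (fun q _ => isConstr_setOf_imp (isConstr_const _) (hze q))) (IsConstr.univ)
    simpa using h1
  have e1 : (Set.univ : Set (Fin n × Fin (M + 1) → ℂ)) = {ξ |
      (∀ q : Fin n × Fin (M + 1), (q.2 : ℕ) < w q.1 → ξ q = 0) ∧
        ξ ∈ (Set.univ : Set (Fin n × Fin (M + 1) → ℂ))} ∪ G 0 := by
    ext ξ
    simp only [hG, Set.mem_univ, Set.mem_union, Set.mem_ofPred_eq, and_true, Finset.mem_univ,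
      true_and, zero_mul, add_zero, true_iff]
    by_cases h1 : ∃ q : Fin n × Fin (M + 1), (q.2 : ℕ) < w q.1 ∧ ξ q ≠ 0
    · exact Or.inr h1
    · push Not at h1
      exact Or.inl h1
  have hd : Disjoint {ξ : Fin n × Fin (M + 1) → ℂ |
      (∀ q : Fin n × Fin (M + 1), (q.2 : ℕ) < w q.1 → ξ q = 0) ∧
        ξ ∈ (Set.univ : Set (Fin n × Fin (M + 1) → ℂ))} (G 0) := by
    rw [Set.disjoint_left]
    rintro ξ ⟨h1, -⟩ ⟨q, -, h2, h3⟩
    exact h3 (h1 q (by omega))
  have e2 : {ξ : Fin n × Fin (M + 1) → ℂ | upw w ξ ∈ (Set.univ :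
      Set (Fin n × Fin (M + 1) → ℂ))} = Set.univ := by
    ext ξ
    simp
  have e3 : Zmot f = PowerSeries.C (↑((LU ^ (∑ i, w i))⁻¹) : Mot) *
      (PowerSeries.X ^ D' * Zmot f) + ser f (M + 1) (G 0) := by
    conv_lhs => rw [← ser_univ f (M + 1), e1, ser_union f hc3 (hGc 0) hd,
      ser_weights hfw (fun i => by have := hwa i; omega) IsConstr.univ, e2, ser_univ]
  obtain ⟨g, hg1, hg2⟩ := exists_inv hD' (∑ i, w i) hsw
  have e4 : Zmot f = ser f (M + 1) (G 0) * g := by
    have h3 : Zmot f * (1 - PowerSeries.C (↑((LU ^ (∑ i, w i))⁻¹) : Mot) * PowerSeries.X ^ D') =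
        ser f (M + 1) (G 0) := by
      rw [mul_sub, mul_one]
      nth_rewrite 1 [e3]
      ring
    rw [← h3, mul_assoc, mul_comm _ g, hg2, mul_one]
  rw [e4]
  exact mul_mem h0 hg1

/-- The same for the zeta function at the origin. -/
theorem zmot0_mem_of_two {f : MvPolynomial (Fin n) ℂ} {a : Fin n → ℕ} {D : ℕ} (H : WHom f a D)
    {w : Fin n → ℕ} {D' : ℕ} (hD' : 0 < D') (hfw : f.IsWeightedHomogeneous w D')
    (B : Finset (Fin n → ℂ)) (hcov : ∀ p ∈ Cr f, ∃ b ∈ B, ∃ t : ℂ, p = sc a t b) {s₀ : ℚ}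
    (hs : s₀ ≠ -1) (hsw : ((∑ i, w i : ℕ) : ℚ) / D' ≠ -s₀)
    (hreg : ∀ b ∈ B, b ∈ Cr f → Zmot0 (translate b f) ∈ regularAt s₀) :
    Zmot0 f ∈ regularAt s₀ := by
  have h1 := zmot_mem_of_two H hD' hfw B hcov hs hsw hreg
  have hc : IsConstr ({0} : Set (Fin n → ℂ)) := isConstr_point 0
  have h2 : seriesAt f ({0} : Set (Fin n → ℂ))ᶜ ∈ regularAt s₀ := by
    refine seriesAt_mem_of_inv H B hcov hs hreg hc.compl (by simp) ?_
    intro p t ht hp h0
    apply hp
    funext i
    have h3 := congrFun h0 i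
    exact (mul_eq_zero.1 h3).resolve_left (pow_ne_zero _ ht)
  have h3 : Zmot f = Zmot0 f + seriesAt f ({0} : Set (Fin n → ℂ))ᶜ := by
    rw [← seriesAt_univ, ← Set.union_compl_self ({0} : Set (Fin n → ℂ)),
      seriesAt_union f hc hc.compl disjoint_compl_right, seriesAt_singleton, translate_zero]
  have h4 : Zmot0 f = Zmot f - seriesAt f ({0} : Set (Fin n → ℂ))ᶜ := by
    rw [h3, add_sub_cancel_right]
  rw [h4]
  exact sub_mem h1 h2

end TW

end MPb07157
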