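import Pool.Agent.Lib.MP_b07157_agWI.LC
import Pool.Agent.Lib.MP_b07157_agWI.TA
import Pool.Agent.Lib.MP_b07157_agWI.TB
import Pool.Agent.Lib.MP_b07157_agW.WM

/-!
# Weighted homogeneous polynomials with finitely many critical orbits: no condition at the candidate
-/

noncomputable section

namespace MPb07157

open MvPolynomial

namespace TW

open YV YW YC W

variable {n : ℕ}

theorem wh_algEquiv {f : MvPolynomial (Fin n) ℂ} {a : Fin n → ℕ} {D : ℕ}
    (hh : f.IsWeightedHomogeneous a D) {e : MvPolynomial (Fin n) ℂ ≃ₐ[ℂ] MvPolynomial (Fin n) ℂ}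
    (he : ∀ i, (e (X i)).IsWeightedHomogeneous a (a i)) : (e f).IsWeightedHomogeneous a D := by
  classical
  rw [algEquiv_eq_aeval, f.as_sum, map_sum]
  refine IsWeightedHomogeneous.sum _ _ _ fun v hv => ?_
  rw [aeval_monomial, MvPolynomial.algebraMap_eq, Finsupp.prod_fintype _ _ (by simp)]
  have h1 : (∏ i, e (X i) ^ v i : MvPolynomial (Fin n) ℂ).IsWeightedHomogeneous a
      (∑ i, v i • a i) :=
    IsWeightedHomogeneous.prod _ _ _ fun i _ => (he i).pow (v i)
  have h2 : ∑ i, v i • a i = D := by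
    rw [← hh (mem_support_iff.1 hv), Finsupp.weight_apply, Finsupp.sum_fintype _ _ (by simp)]
  rw [h2] at h1
  exact h1.C_mul _

/-- **The candidate pole `-∑ a_i/D`.** Let `f` be weighted homogeneous with finitely many critical
orbits, with trivial isotropy groups, and let it be killed by a vector field of weight zero of
non-zero divergence. If `-∑ a_i/D ≠ -1` is not a pole of the zeta functions at the critical points
outside the origin, then it is not a pole of the zeta function of `f`. -/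
theorem zmot0_mem_of_not_NSW {f : MvPolynomial (Fin n) ℂ} {a : Fin n → ℕ} {D : ℕ}
    (H : WHom f a D) (hNS : ¬ NSW f a) (B : Finset (Fin n → ℂ))
    (hcov : ∀ p ∈ Cr f, ∃ b ∈ B, ∃ t : ℂ, p = sc a t b) {s₀ : ℚ} (hs : s₀ ≠ -1)
    (hsd : s₀ = -(((∑ i, a i : ℕ) : ℚ) / D))
    (hreg : ∀ b ∈ B, b ∈ Cr f → Zmot0 (translate b f) ∈ regularAt s₀) :
    Zmot0 f ∈ regularAt s₀ := by
  classical
  obtain ⟨e, w, D', he, he', -, hD', hfw, hne⟩ := exists_weights H.ha H.hD H.hom hNS
  set A : (Fin n → ℂ) → Fin n → ℂ := fun p i => eval p (e (X i)) with hA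
  set A' : (Fin n → ℂ) → Fin n → ℂ := fun p i => eval p (e.symm (X i)) with hA'
  have hAA' : ∀ p, A (A' p) = p := eval_symm_eval e
  have hA'A : ∀ p, A' (A p) = p := eval_symm_eval e.symm
  have hAs : ∀ (c : ℂ) p, A (sc a c p) = sc a c (A p) := by
    intro c p
    funext i
    simp only [hA, sc]
    exact rw_eval_sc (he i) c p
  have hA's : ∀ (c : ℂ) p, A' (sc a c p) = sc a c (A' p) := by
    intro c p
    funext i
    simp only [hA', sc]
    exact rw_eval_sc (he' i) c p
  have hsc0 : ∀ p : Fin n → ℂ, sc a 0 p = 0 := by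
    intro p
    funext i
    simp [sc, zero_pow (H.ha i).ne']
  have hA0 : A 0 = 0 := by
    have := hAs 0 0
    rwa [hsc0, hsc0] at this
  have hA'0 : A' 0 = 0 := by
    have := hA's 0 0
    rwa [hsc0, hsc0] at this
  have hcr : ∀ p ∈ Cr (e f), A p ∈ Cr f := by
    rintro p ⟨hp, hg⟩
    exact ⟨fun h => hp (by rw [← hA'A p, h, hA'0]), fun i => grad_algEquiv e hg i⟩
  have H' : WHom (e f) a D := by
    refine ⟨H.ha, H.haD, H.hD, wh_algEquiv H.hom he, fun q hq m hm => ?_⟩
    have hq' : A q ∈ Cr f := hcr q hq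
    refine H.free (A q) hq' m fun i hi => ?_
    have hm0 : m ≠ 0 := by
      rintro rfl
      obtain ⟨l, hl⟩ := Function.ne_iff.1 hq.1
      have h1 := Nat.eq_zero_of_zero_dvd (hm l hl)
      exact (H.ha l).ne' h1
    obtain ⟨ζ, hζ⟩ : ∃ ζ : ℂ, IsPrimitiveRoot ζ m := ⟨_, Complex.isPrimitiveRoot_exp m hm0⟩
    have h1 : sc a ζ q = q := by
      funext l
      simp only [sc]
      by_cases hl : q l = 0
      · rw [hl, mul_zero]
      · rw [(hζ.pow_eq_one_iff_dvd _).2 (hm l hl), one_mul]
    have h2 : sc a ζ (A q) = A q := by rw [← hAs, h1]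
    have h3 : ζ ^ a i * A q i = A q i := congrFun h2 i
    have h4 : ζ ^ a i = 1 := mul_right_cancel₀ hi (by rw [h3, one_mul])
    exact (hζ.pow_eq_one_iff_dvd _).1 h4
  have hser : ∀ b, seriesAt (e f) {A' b} = seriesAt f {b} := by
    intro b
    rw [← seriesAt_algEquiv e f (isConstr_point b)]
    congr 1
    ext p
    simp only [Set.mem_singleton_iff, Set.mem_ofPred_eq]
    constructor
    · rintro rfl
      exact hAA' b
    · intro h
      rw [← hA'A p]
      exact congrArg A' h
  have h1 : Zmot0 (e f) ∈ regularAt s₀ := by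
    refine zmot0_mem_of_two H' hD' hfw (B.image A') ?_ hs ?_ ?_
    · intro p hp
      obtain ⟨b, hb, t, ht⟩ := hcov (A p) (hcr p hp)
      exact ⟨A' b, Finset.mem_image_of_mem _ hb, t, by rw [← hA's, ← ht, hA'A]⟩
    · intro h
      apply hne
      rw [hsd, neg_neg] at h
      have hDq : (D' : ℚ) ≠ 0 := by exact_mod_cast hD'.ne'
      have hdq : (D : ℚ) ≠ 0 := by exact_mod_cast H.hD.ne'
      rw [div_eq_div_iff hDq hdq] at h
      exact_mod_cast h
    · intro b' hb' hb'c
      obtain ⟨b, hb, rfl⟩ := Finset.mem_image.1 hb'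
      rw [← seriesAt_singleton, hser, seriesAt_singleton]
      have h2 := hcr _ hb'c
      rw [hAA'] at h2
      exact hreg b hb h2
  have h2 : Zmot0 (e f) = Zmot0 f := by
    have h3 := hser 0
    rw [hA'0, seriesAt_singleton, seriesAt_singleton, translate_zero, translate_zero] at h3
    exact h3
  rwa [h2] at h1

/-- Weighted homogeneous polynomials with finitely many critical orbits. -/
theorem smcLoc_of_not_NSW {f : MvPolynomial (Fin n) ℂ} (hf : f ≠ 0) {a : Fin n → ℕ} {D : ℕ}
    (H : WHom f a D) (hNS : ¬ NSW f a) (B : Finset (Fin n → ℂ))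
    (hcov : ∀ p ∈ Cr f, ∃ b ∈ B, ∃ t : ℂ, p = sc a t b)
    (hP : ∀ q ∈ B, q ∈ Cr f → SmcLoc (translate q f)) : SmcLoc f := by
  intro s₀ hs hpole b hb
  have hD := H.hD
  have hDQ : (0 : ℚ) < D := by exact_mod_cast hD
  have H0 := wc0_of_wHom H hf
  have h00 : (0 : Fin n →₀ ℕ) ∉ f.support := by
    intro h
    have h1 := H0.low 0 h
    unfold MPb07157.wt at h1
    simp at h1
    omega
  by_cases hs1 : s₀ = -1
  · subst hs1
    exact neg_one_root hf h00 b hb
  have key : ∃ q ∈ B, q ∈ Cr f ∧ IsPole (Zmot0 (translate q f)) s₀ := by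
    by_cases hs2 : s₀ = -(((∑ j, a j : ℕ) : ℚ) / D)
    · by_contra hcon
      push Not at hcon
      refine hpole (zmot0_mem_of_not_NSW H hNS B hcov hs1 hs2 fun q hq hqC => ?_)
      have h3 := hcon q hq hqC
      unfold IsPole at h3
      exact not_not.1 h3
    · have hcand : ((∑ j, a j : ℕ) : ℚ) + D * s₀ ≠ 0 := by
        intro h
        apply hs2
        rw [← neg_div, eq_div_iff hDQ.ne']
        linarith
      rcases pole_of_wcone hf H (T := ∅) Set.finite_empty (P := B)
        (fun p hp => Or.inr (hcov p hp)) (PP := fun _ _ => False)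
        (fun W hW => absurd hW (Set.notMem_empty W)) hs1 hcand hpole with
        ⟨k, g, p, hg, -, -, -⟩ | h
      · exact absurd hg not_false
      · exact h
  obtain ⟨q, hq, hqC, hpole'⟩ := key
  have hbg : IsBernsteinSato f b := isBernsteinSato_of_form_weighted H.ha H.hom hb
  exact hP q hq hqC s₀ hs hpole' b (form_translate q hbg)

end TW

open YC in
/-- **Weighted homogeneous polynomials** with finitely many critical orbits, at the points of which a
polynomial vector field which kills `f` does not vanish, if the sections at representatives of the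
orbits satisfy the conjecture. -/
theorem SmcLoc.of_wconeQ {k : ℕ} {f : MvPolynomial (Fin (k + 1)) ℂ} (hf : f ≠ 0)
    {a : Fin (k + 1) → ℕ} {D : ℕ} (H : WHom f a D) {P : Finset (Fin (k + 1) → ℂ)}
    (hcov : ∀ q, SingPt f q → QHat f q ∧ ∃ p ∈ P, ∃ t : ℂ, q = fun i => t ^ a i * p i)
    (j : (Fin (k + 1) → ℂ) → Fin (k + 1)) (hj : ∀ q ∈ P, q (j q) = 1)
    (hP : ∀ q ∈ P, YQ.chartEq f q (j q) ≠ 0 → coeff 0 (YQ.chartEq f q (j q)) = 0 →
      SmcLoc (YQ.chartEq f q (j q))) : SmcLoc f := by
  by_cases hNS : NSW f a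
  · have hLT : LinType f := linType_of_wIsolated H.ha H.haD H.hom (B := P)
      (fun q hq0 hq => (hcov q ⟨hq0, hq⟩).2) (fun q hq0 hq => (hcov q ⟨hq0, hq⟩).1)
    exact SmcLoc.of_wcone hf H (T := ∅) Set.finite_empty (P := P)
      (fun p hp => Or.inr (hcov p hp).2)
      (PP := fun k g => g ≠ 0 → coeff 0 g = 0 → SmcLoc g) (fun _ _ hg => hg)
      (fun W hW => absurd hW (Set.notMem_empty W)) j hj hP (Or.inr (Or.inr (Or.inl ⟨hLT, hNS⟩)))
  · refine TW.smcLoc_of_not_NSW hf H hNS P (fun p hp => (hcov p hp).2) fun q hq hqC => ?_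
    have h0 := YC.eval_of_Cr H hqC
    refine YC.smcLoc_section H.ha H.hom hf (hj q hq) h0 ?_
    refine hP q hq (YC.gch_ne_zeroW hf H.ha H.hom q (j q)) ?_
    have h1 := SI.pole_eval_gch f q (j q) (hj q hq)
    rw [h0, MvPolynomial.eval_zero, constantCoeff_eq] at h1
    exact h1

end MPb07157
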