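import Pool.Agent.Lib.MP_b07157_agI.LinD

/-!
# Linear type for isolated points: forms of different degrees
-/

noncomputable section

namespace MPb07157I

open MvPolynomial MPb07157Q

variable {m : ℕ}

namespace WI

/-- The combination `∑ A_j v_j`. -/
def cmb {n : ℕ} (v A : Fin n → MvPolynomial (Fin n) ℂ) : MvPolynomial (Fin n) ℂ := ∑ j, A j * v j

/-- The rows: `A_j = 0` for `j < r`, `A_j` a form of degree `e_r - e_j` for `j ≥ r`. -/
def rowS {n : ℕ} (e : Fin n → ℕ) (r : Fin n) : Submodule ℂ (Fin n → MvPolynomial (Fin n) ℂ) where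
  carrier := {A | ∀ j, (j < r → A j = 0) ∧ (r ≤ j → (A j).IsHomogeneous (e r - e j))}
  add_mem' := by
    intro a b ha hb j
    refine ⟨fun h => ?_, fun h => ?_⟩
    · rw [Pi.add_apply, (ha j).1 h, (hb j).1 h, add_zero]
    · exact ((ha j).2 h).add ((hb j).2 h)
  zero_mem' := fun j => ⟨fun _ => rfl, fun _ => isHomogeneous_zero _ _ _⟩
  smul_mem' := by
    intro c a ha j
    refine ⟨fun h => ?_, fun h => ?_⟩
    · rw [Pi.smul_apply, (ha j).1 h, smul_zero]
    · rw [Pi.smul_apply, smul_eq_C_mul]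
      exact ((ha j).2 h).C_mul c

theorem mem_rowS {n : ℕ} {e : Fin n → ℕ} {r : Fin n} {A : Fin n → MvPolynomial (Fin n) ℂ} :
    A ∈ rowS e r ↔ ∀ j, (j < r → A j = 0) ∧ (r ≤ j → (A j).IsHomogeneous (e r - e j)) := Iff.rfl

/-- A form at one place. -/
theorem single_mem_rowS {n : ℕ} {e : Fin n → ℕ} {r j : Fin n} (hj : r ≤ j)
    {g : MvPolynomial (Fin n) ℂ} (hg : g.IsHomogeneous (e r - e j)) :
    (Pi.single j g : Fin n → MvPolynomial (Fin n) ℂ) ∈ rowS e r := by
  classical
  intro k
  by_cases hk : k = j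
  · subst hk
    rw [Pi.single_eq_same]
    exact ⟨fun h => absurd h (not_lt.2 hj), fun _ => hg⟩
  · rw [Pi.single_eq_of_ne hk]
    exact ⟨fun _ => rfl, fun _ => isHomogeneous_zero _ _ _⟩

theorem cmb_add {n : ℕ} (v A B : Fin n → MvPolynomial (Fin n) ℂ) :
    cmb v (A + B) = cmb v A + cmb v B := by
  unfold cmb
  rw [← Finset.sum_add_distrib]
  refine Finset.sum_congr rfl fun j _ => ?_
  rw [Pi.add_apply, add_mul]

theorem cmb_zero {n : ℕ} (v : Fin n → MvPolynomial (Fin n) ℂ) : cmb v 0 = 0 := by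
  unfold cmb
  refine Finset.sum_eq_zero fun j _ => ?_
  rw [Pi.zero_apply, zero_mul]

theorem cmb_smul {n : ℕ} (v : Fin n → MvPolynomial (Fin n) ℂ) (c : ℂ)
    (A : Fin n → MvPolynomial (Fin n) ℂ) : cmb v (c • A) = C c * cmb v A := by
  unfold cmb
  rw [Finset.mul_sum]
  refine Finset.sum_congr rfl fun j _ => ?_
  rw [Pi.smul_apply, smul_eq_C_mul, mul_assoc]

theorem cmb_single {n : ℕ} (v : Fin n → MvPolynomial (Fin n) ℂ) (j : Fin n)
    (g : MvPolynomial (Fin n) ℂ) : cmb v (Pi.single j g) = g * v j := by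
  classical
  unfold cmb
  rw [Finset.sum_eq_single j (fun i _ hi => by rw [Pi.single_eq_of_ne hi, zero_mul])
    (fun h => absurd (Finset.mem_univ _) h), Pi.single_eq_same]

theorem isHomogeneous_cmb {n : ℕ} {v : Fin n → MvPolynomial (Fin n) ℂ} {e : Fin n → ℕ}
    (hv : ∀ i, (v i).IsHomogeneous (e i)) (he : Antitone e) {r : Fin n}
    {A : Fin n → MvPolynomial (Fin n) ℂ} (hA : A ∈ rowS e r) :
    (cmb v A).IsHomogeneous (e r) := by
  unfold cmb
  refine IsHomogeneous.sum _ _ _ fun j _ => ?_
  rcases lt_or_ge j r with h | h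
  · rw [(hA j).1 h, zero_mul]
    exact isHomogeneous_zero _ _ _
  · have h1 := ((hA j).2 h).mul (hv j)
    rwa [Nat.sub_add_cancel (he h)] at h1

/-- The rows whose combination lies in an ideal. -/
def cmbS {n : ℕ} (v : Fin n → MvPolynomial (Fin n) ℂ) (P : Ideal (MvPolynomial (Fin n) ℂ))
    (W : Submodule ℂ (Fin n → MvPolynomial (Fin n) ℂ)) : Submodule ℂ W where
  carrier := {A | cmb v A.1 ∈ P}
  add_mem' := fun {a b} ha hb => by
    show cmb v (a.1 + b.1) ∈ P
    rw [cmb_add]
    exact P.add_mem ha hb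
  zero_mem' := by
    show cmb v 0 ∈ P
    rw [cmb_zero]
    exact P.zero_mem
  smul_mem' := fun c a ha => by
    show cmb v (c • a.1) ∈ P
    rw [cmb_smul]
    exact P.mul_mem_left _ ha

/-- The rows whose value at `p` lies in a subspace. -/
def evS {n : ℕ} (p : Fin n → ℂ) (N : Submodule ℂ (Fin n → ℂ))
    (W : Submodule ℂ (Fin n → MvPolynomial (Fin n) ℂ)) : Submodule ℂ W where
  carrier := {A | (fun j => eval p (A.1 j)) ∈ N}
  add_mem' := fun {a b} ha hb => by
    show (fun j => eval p ((a.1 + b.1) j)) ∈ N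
    have h : (fun j => eval p ((a.1 + b.1) j)) = (fun j => eval p (a.1 j)) +
        fun j => eval p (b.1 j) := by
      funext j
      rw [Pi.add_apply, map_add]
      rfl
    rw [h]
    exact N.add_mem ha hb
  zero_mem' := by
    show (fun j => eval p ((0 : Fin n → MvPolynomial (Fin n) ℂ) j)) ∈ N
    have h : (fun j => eval p ((0 : Fin n → MvPolynomial (Fin n) ℂ) j)) = 0 := by
      funext j
      rw [Pi.zero_apply, map_zero]
      rfl
    rw [h]
    exact N.zero_mem
  smul_mem' := fun c a ha => by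
    show (fun j => eval p ((c • a.1) j)) ∈ N
    have h : (fun j => eval p ((c • a.1) j)) = c • fun j => eval p (a.1 j) := by
      funext j
      rw [Pi.smul_apply, smul_eval]
      rfl
    rw [h]
    exact N.smul_mem c ha

theorem exists_avoid' {M : Type*} [AddCommGroup M] [Module ℂ M] (T : Finset (Submodule ℂ M))
    (hT : ∀ p ∈ T, p ≠ ⊤) : ∃ A : M, ∀ p ∈ T, A ∉ p := by
  by_contra hcon
  push Not at hcon
  have h1 : (⊤ : Submodule ℂ M) ∉ T := fun h => hT _ h rfl
  apply Subspace.biUnion_ne_univ_of_top_notMem (s := T) h1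
  rw [Set.eq_univ_iff_forall]
  intro A
  obtain ⟨p, hp, hA⟩ := hcon A
  exact Set.mem_biUnion hp hA

/-- A form of degree `k` with a given value at `p ≠ 0`. -/
theorem exists_form {n : ℕ} {p : Fin n → ℂ} (hp : p ≠ 0) (k : ℕ) (c : ℂ) :
    ∃ g : MvPolynomial (Fin n) ℂ, g.IsHomogeneous k ∧ eval p g = c := by
  obtain ⟨j, hj⟩ := Function.ne_iff.1 hp
  rw [Pi.zero_apply] at hj
  refine ⟨C (c / p j ^ k) * X j ^ k, ?_, ?_⟩
  · have h := ((isHomogeneous_X ℂ j).pow k).C_mul (c / p j ^ k)
    rwa [one_mul] at h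
  · rw [map_mul, eval_C, map_pow, eval_X]
    field_simp

/-- A subspace with all the coordinate vectors. -/
theorem eq_top_of_single {n : ℕ} {N : Submodule ℂ (Fin n → ℂ)}
    (h : ∀ j, (Pi.single j 1 : Fin n → ℂ) ∈ N) : N = ⊤ := by
  classical
  rw [Submodule.eq_top_iff']
  intro x
  have h1 : x = ∑ j, x j • (Pi.single j 1 : Fin n → ℂ) := by
    funext k
    rw [Finset.sum_apply, Finset.sum_eq_single k]
    · rw [Pi.smul_apply, Pi.single_eq_same, smul_eq_mul, mul_one]
    · intro j _ hj
      rw [Pi.smul_apply, Pi.single_eq_of_ne hj.symm, smul_zero]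
    · intro hk
      exact absurd (Finset.mem_univ _) hk
  rw [h1]
  exact Submodule.sum_mem _ fun j _ => Submodule.smul_mem _ _ (h j)

/-- Triangular systems. -/
theorem top_of_rows {n : ℕ} {r : ℕ} {N : Submodule ℂ (Fin n → ℂ)}
    (h1 : ∀ j : Fin n, r ≤ j → (Pi.single j 1 : Fin n → ℂ) ∈ N)
    (h2 : ∀ i : Fin n, (i : ℕ) < r → ∃ u ∈ N, u i = 1 ∧ ∀ j, j < i → u j = 0) : N = ⊤ := by
  classical
  apply eq_top_of_single
  have key : ∀ k : ℕ, ∀ j : Fin n, n ≤ j + k → (Pi.single j 1 : Fin n → ℂ) ∈ N := by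
    intro k
    induction k with
    | zero =>
      intro j hj
      have := j.2
      omega
    | succ k ih =>
      intro j hj
      by_cases hjr : r ≤ j
      · exact h1 j hjr
      · obtain ⟨u, hu, huj, hu0⟩ := h2 j (by omega)
        have h3 : (Pi.single j 1 : Fin n → ℂ) =
            u - ∑ l ∈ Finset.univ.filter (fun l => j < l), u l • (Pi.single l 1 : Fin n → ℂ) := by
          funext l
          rw [Pi.sub_apply, Finset.sum_apply]
          rcases lt_trichotomy l j with h | h | h
          · rw [Pi.single_eq_of_ne h.ne, hu0 l h, Finset.sum_eq_zero, sub_zero]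
            intro k' hk'
            rw [Pi.smul_apply, Pi.single_eq_of_ne, smul_zero]
            rintro rfl
            exact lt_asymm h (Finset.mem_filter.1 hk').2
          · subst h
            rw [Pi.single_eq_same, huj, Finset.sum_eq_zero, sub_zero]
            intro k' hk'
            rw [Pi.smul_apply, Pi.single_eq_of_ne, smul_zero]
            rintro rfl
            exact lt_irrefl _ (Finset.mem_filter.1 hk').2
          · rw [Pi.single_eq_of_ne h.ne', Finset.sum_eq_single l]
            · rw [Pi.smul_apply, Pi.single_eq_same, smul_eq_mul, mul_one, sub_self]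
            · intro k' _ hk'
              rw [Pi.smul_apply, Pi.single_eq_of_ne hk'.symm, smul_zero]
            · intro hl
              exact absurd (Finset.mem_filter.2 ⟨Finset.mem_univ _, h⟩) hl
        rw [h3]
        refine N.sub_mem hu (N.sum_mem fun l hl => N.smul_mem _ (ih l ?_))
        have h4 : (j : ℕ) < l := (Finset.mem_filter.1 hl).2
        omega
  intro j
  exact key n j (by omega)

/-- All the `v_j` lie in an ideal which contains triangular combinations. -/
theorem all_mem {n : ℕ} {r : ℕ} {v : Fin n → MvPolynomial (Fin n) ℂ}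
    {P : Ideal (MvPolynomial (Fin n) ℂ)} (h1 : ∀ j : Fin n, r ≤ j → v j ∈ P)
    (h2 : ∀ i : Fin n, (i : ℕ) < r → ∃ u : Fin n → MvPolynomial (Fin n) ℂ, cmb v u ∈ P ∧
      u i = 1 ∧ ∀ j, j < i → u j = 0) : ∀ j, v j ∈ P := by
  classical
  have key : ∀ k : ℕ, ∀ j : Fin n, n ≤ j + k → v j ∈ P := by
    intro k
    induction k with
    | zero =>
      intro j hj
      have := j.2
      omega
    | succ k ih =>
      intro j hj
      by_cases hjr : r ≤ j
      · exact h1 j hjr
      · obtain ⟨u, hu, huj, hu0⟩ := h2 j (by omega)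
        have h3 : v j = cmb v u - ∑ l ∈ Finset.univ.erase j, u l * v l := by
          unfold cmb
          rw [← Finset.add_sum_erase Finset.univ _ (Finset.mem_univ j), huj, one_mul,
            add_sub_cancel_right]
        rw [h3]
        refine P.sub_mem hu (P.sum_mem fun l hl => ?_)
        rcases lt_trichotomy l j with h | h | h
        · rw [hu0 l h, zero_mul]
          exact P.zero_mem
        · exact absurd h (Finset.ne_of_mem_erase hl)
        · refine P.mul_mem_left _ (ih l ?_)
          have h4 : (j : ℕ) < l := h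
          omega
  intro j
  exact key n j (by omega)

/-- The combinations are not all in a prime ideal which does not contain all the `v_j`. -/
theorem cmbS_ne_top {v : Fin (m + 1) → MvPolynomial (Fin (m + 1)) ℂ} {e : Fin (m + 1) → ℕ}
    (hv : ∀ i, (v i).IsHomogeneous (e i)) (he0 : ∀ i, 0 < e i)
    {P : Ideal (MvPolynomial (Fin (m + 1)) ℂ)} (hP : P.IsPrime) (hvP : ¬ ∀ j, v j ∈ P)
    {r : Fin (m + 1)}
    (hU : ∀ i : Fin (m + 1), i < r → ∃ u : Fin (m + 1) → MvPolynomial (Fin (m + 1)) ℂ,
      cmb v u ∈ P ∧ u i = 1 ∧ ∀ j, j < i → u j = 0) : cmbS v P (rowS e r) ≠ ⊤ := by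
  classical
  intro htop
  apply hvP
  have hmem : ∀ A : rowS e r, cmb v A.1 ∈ P := by
    intro A
    have h : A ∈ cmbS v P (rowS e r) := by
      rw [htop]
      exact Submodule.mem_top
    exact h
  -- all the variables in `P`
  by_cases hX : ∀ k, (X k : MvPolynomial (Fin (m + 1)) ℂ) ∈ P
  · intro j
    have h1 : v j ∈ Ideal.span (Set.range (X : Fin (m + 1) → MvPolynomial (Fin (m + 1)) ℂ)) := by
      have h2 := MvPolynomial.mem_ideal_span_X_image (R := ℂ) (σ := Fin (m + 1)) (x := v j)
        (s := Set.univ)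
      rw [Set.image_univ] at h2
      rw [h2]
      intro w hw
      have h3 : w.degree = e j := by
        have := hv j (mem_support_iff.1 hw)
        rw [← this, Finsupp.degree_eq_weight_one]
        rfl
      by_contra hcon
      push Not at hcon
      have h4 : w = 0 := by
        ext i
        exact hcon i (Set.mem_univ i)
      rw [h4, map_zero] at h3
      exact (he0 j).ne h3
    refine (Ideal.span_le.2 ?_) h1
    rintro _ ⟨k, rfl⟩
    exact hX k
  · push Not at hX
    obtain ⟨k, hk⟩ := hX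
    refine all_mem (r := r) (fun j hj => ?_) (fun i hi => hU i hi)
    have h1 := hmem ⟨Pi.single j (X k ^ (e r - e j)), single_mem_rowS hj (by
      have h := (isHomogeneous_X ℂ k).pow (e r - e j)
      rwa [one_mul] at h)⟩
    rw [cmb_single] at h1
    rcases hP.mem_or_mem h1 with h2 | h2
    · exact absurd (hP.mem_of_pow_mem _ h2) hk
    · exact h2

/-- The values of the rows at `p` are not all in a small subspace. -/
theorem evS_ne_top {e : Fin (m + 1) → ℕ} {p : Fin (m + 1) → ℂ} (hp : p ≠ 0)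
    {N : Submodule ℂ (Fin (m + 1) → ℂ)} (hN : N ≠ ⊤) {r : Fin (m + 1)}
    (hU : ∀ i : Fin (m + 1), i < r → ∃ u ∈ N, u i = 1 ∧ ∀ j, j < i → u j = 0) :
    evS p N (rowS e r) ≠ ⊤ := by
  classical
  intro htop
  apply hN
  refine top_of_rows (r := r) (fun j hj => ?_) (fun i hi => hU i hi)
  obtain ⟨g, hg, hgp⟩ := exists_form hp (e r - e j) 1
  have h1 : (⟨Pi.single j g, single_mem_rowS hj hg⟩ : rowS e r) ∈ evS p N (rowS e r) := by
    rw [htop]
    exact Submodule.mem_top
  have h2 : (fun l => eval p ((Pi.single j g : Fin (m + 1) → MvPolynomial (Fin (m + 1)) ℂ) l)) =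
      (Pi.single j 1 : Fin (m + 1) → ℂ) := by
    funext l
    by_cases hl : l = j
    · subst hl
      rw [Pi.single_eq_same, Pi.single_eq_same, hgp]
    · rw [Pi.single_eq_of_ne hl, Pi.single_eq_of_ne hl, map_zero]
  rw [← h2]
  exact h1

/-- The rows with the entry `0` at the place `r`. -/
def ker0 {n : ℕ} (r : Fin n) (W : Submodule ℂ (Fin n → MvPolynomial (Fin n) ℂ)) :
    Submodule ℂ W where
  carrier := {A | coeff 0 (A.1 r) = 0}
  add_mem' := fun {a b} ha hb => by
    show coeff 0 ((a.1 + b.1) r) = 0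
    rw [Pi.add_apply, coeff_add]
    have ha' : coeff 0 (a.1 r) = 0 := ha
    have hb' : coeff 0 (b.1 r) = 0 := hb
    rw [ha', hb', add_zero]
  zero_mem' := by
    show coeff 0 ((0 : Fin n → MvPolynomial (Fin n) ℂ) r) = 0
    rw [Pi.zero_apply, coeff_zero]
  smul_mem' := fun c a ha => by
    show coeff 0 ((c • a.1) r) = 0
    have ha' : coeff 0 (a.1 r) = 0 := ha
    rw [Pi.smul_apply, coeff_smul, ha', smul_zero]

theorem ker0_ne_top {n : ℕ} (e : Fin n → ℕ) (r : Fin n) : ker0 r (rowS e r) ≠ ⊤ := by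
  classical
  intro htop
  have h1 : (⟨Pi.single r 1, single_mem_rowS le_rfl (by
      rw [Nat.sub_self]
      exact isHomogeneous_one _ _)⟩ : rowS e r) ∈ ker0 r (rowS e r) := by
    rw [htop]
    exact Submodule.mem_top
  have h2 : coeff 0 ((Pi.single r 1 : Fin n → MvPolynomial (Fin n) ℂ) r) = 0 := h1
  rw [Pi.single_eq_same, coeff_zero_one] at h2
  exact one_ne_zero h2

/-- The values of the first rows. -/
def vals {n : ℕ} (U : ℕ → Fin n → MvPolynomial (Fin n) ℂ) (p : Fin n → ℂ) (r : ℕ) :
    Set (Fin n → ℂ) := Set.range fun (i : Fin r) (j : Fin n) => eval p (U i j)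

/-- **General rows.** -/
theorem exists_rows {v : Fin (m + 1) → MvPolynomial (Fin (m + 1)) ℂ} {e : Fin (m + 1) → ℕ}
    (hv : ∀ i, (v i).IsHomogeneous (e i)) (he0 : ∀ i, 0 < e i)
    {B : Finset (Fin (m + 1) → ℂ)} (hB : ∀ b ∈ B, b ≠ 0)
    (hcov : ∀ p : Fin (m + 1) → ℂ, p ≠ 0 → (∀ i, eval p (v i) = 0) → ∃ b ∈ B, ∃ c : ℂ, p = c • b)
    (S : Finset ((Fin (m + 1) → ℂ) × (Fin (m + 1) → ℂ))) (hS : ∀ z ∈ S, z.1 ≠ 0 ∧ z.2 ≠ 0) :
    ∀ r ≤ m, ∃ U : ℕ → Fin (m + 1) → MvPolynomial (Fin (m + 1)) ℂ,
      (∀ i : Fin (m + 1), (i : ℕ) < r → U i ∈ rowS e i ∧ U i i = 1) ∧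
      (∀ z ∈ S, z.2 ∉ Submodule.span ℂ (vals U z.1 r)) ∧
      ∀ P : Ideal (MvPolynomial (Fin (m + 1)) ℂ), P.IsPrime →
        (∀ i : Fin (m + 1), (i : ℕ) < r → cmb v (U i) ∈ P) → Dle (m + 1 - r) P := by
  classical
  intro r
  induction r with
  | zero =>
    intro _
    refine ⟨fun _ => 0, fun i hi => absurd hi (Nat.not_lt_zero _), fun z hz => ?_,
      fun P hP _ => ?_⟩
    · have h1 : vals (fun _ => 0) z.1 0 = (∅ : Set (Fin (m + 1) → ℂ)) := by
        unfold vals
        rw [Set.range_eq_empty]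
      rw [h1, Submodule.span_empty, Submodule.mem_bot]
      exact (hS z hz).2
    · exact @dle_all (m + 1) P hP
  | succ r ih =>
    intro hr
    obtain ⟨U, hU, hSU, hD⟩ := ih (by omega)
    set ρ : Fin (m + 1) := ⟨r, by omega⟩ with hρ
    let I : Ideal (MvPolynomial (Fin (m + 1)) ℂ) :=
      Ideal.span {g | ∃ i : Fin (m + 1), (i : ℕ) < r ∧ g = cmb v (U i)}
    have hfin : I.minimalPrimes.Finite := Ideal.finite_minimalPrimes_of_isNoetherianRing _ I
    let T : Finset (Submodule ℂ (rowS e ρ)) :=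
      ({ker0 ρ (rowS e ρ)} ∪
        S.image fun z => evS z.1 (Submodule.span ℂ (insert z.2 (vals U z.1 r))) (rowS e ρ)) ∪
        (hfin.toFinset.filter fun P => ¬ ∀ j, v j ∈ P).image fun P => cmbS v P (rowS e ρ)
    obtain ⟨A, hA⟩ := exists_avoid' T (by
      intro p hp
      rw [Finset.mem_union, Finset.mem_union, Finset.mem_singleton, Finset.mem_image,
        Finset.mem_image] at hp
      rcases hp with (rfl | ⟨z, hz, rfl⟩) | ⟨P, hP, rfl⟩
      · exact ker0_ne_top e ρ
      · refine evS_ne_top (hS z hz).1 ?_ ?_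
        · have h1 := span_ne_top (m := m) (r := r + 1) (by omega)
            (Fin.cons z.2 fun (i : Fin r) (j : Fin (m + 1)) => eval z.1 (U i j))
          rwa [Fin.range_cons] at h1
        · intro i hi
          refine ⟨fun j => eval z.1 (U i j), Submodule.subset_span (Set.mem_insert_of_mem _
            ⟨⟨i, hi⟩, rfl⟩), ?_, fun j hj => ?_⟩
          · show eval z.1 (U i i) = 1
            rw [(hU i hi).2, map_one]
          · show eval z.1 (U i j) = 0
            rw [((hU i hi).1 j).1 hj, map_zero]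
      · have hPm := hfin.mem_toFinset.1 (Finset.mem_filter.1 hP).1
        have hI : I ≤ P := hPm.1.2
        refine cmbS_ne_top hv he0 hPm.1.1 (Finset.mem_filter.1 hP).2 ?_
        intro i hi
        exact ⟨U i, hI (Ideal.subset_span ⟨i, hi, rfl⟩), (hU i hi).2,
          fun j hj => ((hU i hi).1 j).1 hj⟩)
    -- the constant term
    have hA0 : coeff 0 (A.1 ρ) ≠ 0 := by
      intro h
      refine hA (ker0 ρ (rowS e ρ)) ?_ h
      rw [Finset.mem_union, Finset.mem_union, Finset.mem_singleton]
      exact Or.inl (Or.inl rfl)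
    set c := coeff 0 (A.1 ρ) with hc
    have hAρ : A.1 ρ = C c := by
      have h1 := (A.2 ρ).2 le_rfl
      rw [Nat.sub_self] at h1
      exact totalDegree_eq_zero_iff_eq_C.1 ((totalDegree_zero_iff_isHomogeneous _).2 h1)
    set A' : Fin (m + 1) → MvPolynomial (Fin (m + 1)) ℂ := c⁻¹ • A.1 with hA'
    have hA'r : A' ∈ rowS e ρ := (rowS e ρ).smul_mem _ A.2
    have hA'1 : A' ρ = 1 := by
      rw [hA', Pi.smul_apply, hAρ, smul_eq_C_mul, ← C_mul, inv_mul_cancel₀ hA0, C_1]
    have hAA' : A.1 = c • A' := by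
      rw [hA', smul_smul, mul_inv_cancel₀ hA0, one_smul]
    set U' : ℕ → Fin (m + 1) → MvPolynomial (Fin (m + 1)) ℂ :=
      fun i => if i = r then A' else U i with hU'
    have hU'r : U' r = A' := if_pos rfl
    have hU'i : ∀ i, i < r → U' i = U i := fun i hi => if_neg hi.ne
    have hvals : ∀ p, vals U' p (r + 1) = insert (fun j => eval p (A' j)) (vals U p r) := by
      intro p
      ext w
      unfold vals
      rw [Set.mem_insert_iff, Set.mem_range, Set.mem_range]
      constructor
      · rintro ⟨i, rfl⟩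
        by_cases hi : (i : ℕ) = r
        · left
          funext j
          show eval p (U' i j) = _
          rw [hi, hU'r]
        · right
          have h2 := i.2
          refine ⟨⟨i, by omega⟩, ?_⟩
          funext j
          show eval p (U i j) = eval p (U' i j)
          rw [hU'i i (by omega)]
      · rintro (rfl | ⟨i, rfl⟩)
        · refine ⟨Fin.last r, ?_⟩
          funext j
          show eval p (U' r j) = _
          rw [hU'r]
        · refine ⟨Fin.castSucc i, ?_⟩
          funext j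
          show eval p (U' i j) = eval p (U i j)
          rw [hU'i i i.2]
    refine ⟨U', fun i hi => ?_, fun z hz hmem => ?_, fun P hP hcomb => ?_⟩
    · by_cases hir : (i : ℕ) = r
      · have h1 : i = ρ := Fin.ext hir
        rw [hir, hU'r, h1]
        exact ⟨hA'r, hA'1⟩
      · rw [hU'i i (by omega)]
        exact hU i (by omega)
    · rw [hvals] at hmem
      have h1 := mem_span_insert_exchange hmem (hSU z hz)
      refine hA (evS z.1 (Submodule.span ℂ (insert z.2 (vals U z.1 r))) (rowS e ρ)) ?_ ?_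
      · rw [Finset.mem_union, Finset.mem_union, Finset.mem_image]
        exact Or.inl (Or.inr ⟨z, hz, rfl⟩)
      · show (fun j => eval z.1 (A.1 j)) ∈ Submodule.span ℂ (insert z.2 (vals U z.1 r))
        have h2 : (fun j => eval z.1 (A.1 j)) = c • fun j => eval z.1 (A' j) := by
          funext j
          rw [hAA', Pi.smul_apply, smul_eval]
          rfl
        rw [h2]
        exact Submodule.smul_mem _ _ h1
    · have hI : I ≤ P := by
        refine Ideal.span_le.2 ?_
        rintro _ ⟨i, hi, rfl⟩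
        have := hcomb i (by omega)
        rwa [hU'i i hi] at this
      obtain ⟨P', hP', hle⟩ := Ideal.exists_minimalPrimes_le hI
      have hP'p : P'.IsPrime := hP'.1.1
      by_cases hvP : ∀ j, v j ∈ P'
      · exact ((@dle_of_lines (m + 1) _ v B hB hcov P' hP'p hvP).mono hle).le (by omega)
      · have h1 : cmb v A.1 ∉ P' := by
          intro h2
          refine hA (cmbS v P' (rowS e ρ)) ?_ h2
          rw [Finset.mem_union, Finset.mem_image]
          exact Or.inr ⟨P', Finset.mem_filter.2 ⟨hfin.mem_toFinset.2 hP', hvP⟩, rfl⟩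
        have h2 : cmb v A.1 ∈ P := by
          have h3 := hcomb ρ (Nat.lt_succ_self r)
          have h4 : cmb v (U' (ρ : ℕ)) = cmb v A' := by
            show cmb v (U' r) = _
            rw [hU'r]
          rw [h4] at h3
          rw [hAA', cmb_smul]
          exact P.mul_mem_left _ h3
        have hlt : P' < P := lt_of_le_of_ne hle fun h => h1 (h ▸ h2)
        have h3 := hD P' hP'p fun i hi => hP'.1.2 (Ideal.subset_span ⟨i, hi, rfl⟩)
        have e1 : m + 1 - r = (m + 1 - (r + 1)) + 1 := by omega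
        rw [e1] at h3
        exact h3 P hP hlt

end WI

end MPb07157I
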