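import Pool.Agent.Lib.MP_b07157_agWI.LA

/-!
# Linear type for isolated points: forms of different degrees, the theorem
-/

noncomputable section

namespace MPb07157I

open MvPolynomial MPb07157Q

variable {m : ℕ}

namespace WI

/-- A relation whose coefficient at one place is a form. -/
theorem exists_form_coeff {n : ℕ} {v : Fin n → MvPolynomial (Fin n) ℂ} {e : Fin n → ℕ}
    (hv : ∀ i, (v i).IsHomogeneous (e i)) {a : Fin n → MvPolynomial (Fin n) ℂ}
    (ha : ∑ i, a i * v i = 0) {p : Fin n → ℂ} {i₀ : Fin n} (hp : eval p (a i₀) ≠ 0) :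
    ∃ (δ : ℕ) (a' : Fin n → MvPolynomial (Fin n) ℂ), (a' i₀).IsHomogeneous δ ∧
      ∑ i, a' i * v i = 0 ∧ eval p (a' i₀) ≠ 0 := by
  obtain ⟨δ, hδ⟩ : ∃ δ, eval p (homogeneousComponent δ (a i₀)) ≠ 0 := by
    by_contra hcon
    push Not at hcon
    apply hp
    rw [← sum_homogeneousComponent (a i₀), map_sum]
    exact Finset.sum_eq_zero fun δ _ => hcon δ
  refine ⟨δ, fun i => if e i ≤ δ + e i₀ then homogeneousComponent (δ + e i₀ - e i) (a i) else 0,
    ?_, ?_, ?_⟩
  · show (if e i₀ ≤ δ + e i₀ then homogeneousComponent (δ + e i₀ - e i₀) (a i₀) else 0).IsHomogeneous δ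
    rw [if_pos (Nat.le_add_left _ _), Nat.add_sub_cancel]
    exact homogeneousComponent_isHomogeneous _ _
  · have h1 := congrArg (homogeneousComponent (δ + e i₀)) ha
    rw [map_sum, map_zero] at h1
    refine Eq.trans (Finset.sum_congr rfl fun j _ => ?_) h1
    rw [hc_mul (hv j), ite_mul, zero_mul]
  · show eval p (if e i₀ ≤ δ + e i₀ then homogeneousComponent (δ + e i₀ - e i₀) (a i₀) else 0) ≠ 0
    rw [if_pos (Nat.le_add_left _ _), Nat.add_sub_cancel]
    exact hδ

/-- **Linear type** for `n` forms of decreasing degrees in `n` variables with finitely many common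
zeros in projective space, at each of which a relation does not vanish. -/
theorem LT.of_isolated_antitone {v : Fin (m + 1) → MvPolynomial (Fin (m + 1)) ℂ}
    {e : Fin (m + 1) → ℕ} (he0 : ∀ i, 0 < e i) (he : Antitone e)
    (hv : ∀ i, (v i).IsHomogeneous (e i)) {B : Finset (Fin (m + 1) → ℂ)}
    (hcov : ∀ p : Fin (m + 1) → ℂ, p ≠ 0 → (∀ i, eval p (v i) = 0) → ∃ b ∈ B, ∃ c : ℂ, p = c • b)
    (hloc : ∀ p : Fin (m + 1) → ℂ, p ≠ 0 → (∀ i, eval p (v i) = 0) →
      ∃ a : Fin (m + 1) → MvPolynomial (Fin (m + 1)) ℂ, ∑ i, a i * v i = 0 ∧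
        ∃ i, eval p (a i) ≠ 0) : LT v := by
  classical
  -- the points
  let B' : Finset (Fin (m + 1) → ℂ) := B.filter fun b => b ≠ 0 ∧ ∀ i, eval b (v i) = 0
  have hB' : ∀ b ∈ B', b ≠ 0 := fun b hb => (Finset.mem_filter.1 hb).2.1
  have hcov' : ∀ p : Fin (m + 1) → ℂ, p ≠ 0 → (∀ i, eval p (v i) = 0) →
      ∃ b ∈ B', ∃ c : ℂ, p = c • b := by
    intro p hp hpv
    obtain ⟨b, hb, c, rfl⟩ := hcov p hp hpv
    have hc : c ≠ 0 := by
      rintro rfl
      exact hp (zero_smul _ _)
    have hb0 : b ≠ 0 := by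
      rintro rfl
      exact hp (smul_zero _)
    refine ⟨b, Finset.mem_filter.2 ⟨hb, hb0, fun i => ?_⟩, c, rfl⟩
    have h1 := hpv i
    rw [MPb07157.eval_smul_of_isHomogeneous (hv i)] at h1
    exact (mul_eq_zero.1 h1).resolve_left (pow_ne_zero _ hc)
  have hfield : ∀ b : Fin (m + 1) → ℂ, ∃ a : Fin (m + 1) → MvPolynomial (Fin (m + 1)) ℂ,
      b ∈ B' → ∑ i, a i * v i = 0 ∧ ∃ i, eval b (a i) ≠ 0 := by
    intro b
    by_cases hb : b ∈ B'
    · obtain ⟨a, ha, hab⟩ := hloc b (hB' b hb) (Finset.mem_filter.1 hb).2.2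
      exact ⟨a, fun _ => ⟨ha, hab⟩⟩
    · exact ⟨0, fun h => absurd h hb⟩
  choose a ha using hfield
  let S : Finset ((Fin (m + 1) → ℂ) × (Fin (m + 1) → ℂ)) := B'.image fun b =>
    (b, fun i => eval b (a b i))
  have hS : ∀ z ∈ S, z.1 ≠ 0 ∧ z.2 ≠ 0 := by
    intro z hz
    obtain ⟨b, hb, rfl⟩ := Finset.mem_image.1 hz
    obtain ⟨i, hi⟩ := (ha b hb).2
    refine ⟨hB' b hb, fun h => ?_⟩
    exact hi (congrFun h i)
  obtain ⟨U, hU, hSU, hD⟩ := exists_rows hv he0 hB' hcov' S hS m le_rfl
  -- the matrix
  let A : Matrix (Fin (m + 1)) (Fin (m + 1)) (MvPolynomial (Fin (m + 1)) ℂ) :=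
    Matrix.of fun i => if i = Fin.last m then Pi.single (Fin.last m) 1 else U i
  have hAl : ∀ j, A (Fin.last m) j =
      (Pi.single (Fin.last m) 1 : Fin (m + 1) → MvPolynomial (Fin (m + 1)) ℂ) j := fun j => by
    show (if Fin.last m = Fin.last m then
      (Pi.single (Fin.last m) 1 : Fin (m + 1) → MvPolynomial (Fin (m + 1)) ℂ)
      else U (Fin.last m)) j = _
    rw [if_pos rfl]
  have hAi : ∀ i, i ≠ Fin.last m → ∀ j, A i j = U i j := fun i hi j => by
    show (if i = Fin.last m then
      (Pi.single (Fin.last m) 1 : Fin (m + 1) → MvPolynomial (Fin (m + 1)) ℂ) else U i) j = _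
    rw [if_neg hi]
  have hlt : ∀ i : Fin (m + 1), i ≠ Fin.last m → (i : ℕ) < m := by
    intro i hi
    have h1 := i.2
    have h2 : (i : ℕ) ≠ m := fun h => hi (Fin.ext h)
    omega
  have hdet : A.det = 1 := by
    have h1 : A.BlockTriangular id := by
      intro i j hij
      have hij' : j < i := hij
      by_cases hi : i = Fin.last m
      · rw [hi, hAl, Pi.single_eq_of_ne]
        rw [hi] at hij'
        exact hij'.ne
      · rw [hAi i hi]
        exact ((hU i (hlt i hi)).1 j).1 hij'
    rw [Matrix.det_of_upperTriangular h1]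
    refine Finset.prod_eq_one fun i _ => ?_
    by_cases hi : i = Fin.last m
    · rw [hi, hAl, Pi.single_eq_same]
    · rw [hAi i hi]
      exact (hU i (hlt i hi)).2
  have hAu : IsUnit A.det := by
    rw [hdet]
    exact isUnit_one
  have hBA : A⁻¹ * A = 1 := Matrix.nonsing_inv_mul A hAu
  set Bm := A⁻¹ with hBm
  -- the linear form
  let I : Ideal (MvPolynomial (Fin (m + 1)) ℂ) :=
    Ideal.span {g | ∃ i : Fin (m + 1), (i : ℕ) < m ∧ g = cmb v (U i)}
  have hfin : I.minimalPrimes.Finite := Ideal.finite_minimalPrimes_of_isNoetherianRing _ I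
  obtain ⟨c0, hc0⟩ := exists_avoid
    ((hfin.toFinset.filter fun P => ¬ ∀ j, (X j : MvPolynomial (Fin (m + 1)) ℂ) ∈ P).image
      (combS X)) (by
      intro p hp
      obtain ⟨P, hP, rfl⟩ := Finset.mem_image.1 hp
      exact combS_ne_top (Finset.mem_filter.1 hP).2)
  let x : Fin (m + 1) → MvPolynomial (Fin (m + 1)) ℂ := fun i => ∑ j, A i j * v j
  have hxi : ∀ i, i ≠ Fin.last m → x i = cmb v (U i) := fun i hi => by
    show ∑ j, A i j * v j = ∑ j, U i j * v j
    exact Finset.sum_congr rfl fun j _ => by rw [hAi i hi]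
  have hxl : x (Fin.last m) = v (Fin.last m) := by
    show ∑ j, A (Fin.last m) j * v j = _
    rw [Finset.sum_eq_single (Fin.last m)]
    · rw [hAl, Pi.single_eq_same, one_mul]
    · intro j _ hj
      rw [hAl, Pi.single_eq_of_ne hj, zero_mul]
    · intro h
      exact absurd (Finset.mem_univ _) h
  have hxh : ∀ i, (x i).IsHomogeneous (e i) := by
    intro i
    by_cases hi : i = Fin.last m
    · rw [hi, hxl]
      exact hv _
    · rw [hxi i hi]
      exact isHomogeneous_cmb hv he (hU i (hlt i hi)).1
  let y : Fin (m + 1) → MvPolynomial (Fin (m + 1)) ℂ := fun i =>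
    if i = Fin.last m then comb X c0 else x i
  have hyi : ∀ i, i ≠ Fin.last m → y i = x i := fun i hi => if_neg hi
  have hyl : y (Fin.last m) = comb X c0 := if_pos rfl
  have hvx : ∀ i, v i = ∑ j, Bm i j * x j := by
    intro i
    have h1 : ∀ j, Bm i j * x j = ∑ k, (Bm i j * A j k) * v k := by
      intro j
      show Bm i j * ∑ k, A j k * v k = _
      rw [Finset.mul_sum]
      exact Finset.sum_congr rfl fun k _ => (mul_assoc _ _ _).symm
    rw [Finset.sum_congr rfl fun j _ => h1 j, Finset.sum_comm]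
    have h2 : ∀ k, ∑ j, (Bm i j * A j k) * v k = (Bm * A) i k * v k := by
      intro k
      rw [Matrix.mul_apply, Finset.sum_mul]
    rw [Finset.sum_congr rfl fun k _ => h2 k, hBA]
    rw [Finset.sum_eq_single i (fun k _ hk => by
      rw [Matrix.one_apply_ne (Ne.symm hk), zero_mul])
      (fun h => absurd (Finset.mem_univ _) h), Matrix.one_apply_eq, one_mul]
  have hLTx : LT x := by
    refine LT.of_zeros (y := y) (e := fun i => if i = Fin.last m then 1 else e i)
      (fun i => ?_) (fun i => ?_) (fun i hi => ?_) (fun p hp => ?_) (fun p hp0 hp => ?_)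
    · show 0 < (if i = Fin.last m then 1 else e i)
      split_ifs
      · exact one_pos
      · exact he0 i
    · show (if i = Fin.last m then comb X c0 else x i).IsHomogeneous
        (if i = Fin.last m then 1 else e i)
      split_ifs
      · exact isHomogeneous_comb (fun j => isHomogeneous_X _ j) c0
      · exact hxh i
    · exact (hyi i hi).symm
    · by_contra hne
      have hI : I ≤ lineI p := by
        refine Ideal.span_le.2 ?_
        rintro _ ⟨i, hi, rfl⟩
        have hil : i ≠ Fin.last m := by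
          rintro rfl
          exact lt_irrefl m hi
        refine mem_lineI_of_homogeneous (isHomogeneous_cmb hv he (hU i hi).1) ?_
        have h1 := hp i
        rwa [hyi i hil, hxi i hil] at h1
      obtain ⟨P', hP', hle⟩ := Ideal.exists_minimalPrimes_le hI
      have hP'p : P'.IsPrime := hP'.1.1
      have hX : ¬ ∀ j, (X j : MvPolynomial (Fin (m + 1)) ℂ) ∈ P' := by
        intro h
        apply hne
        funext j
        have h1 := mem_lineI.1 (hle (h j)) 1
        rwa [one_smul, eval_X] at h1
      have h1 : comb X c0 ∉ P' := by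
        intro h2
        refine hc0 (combS X P') ?_ (mem_combS.2 h2)
        exact Finset.mem_image.2
          ⟨P', Finset.mem_filter.2 ⟨hfin.mem_toFinset.2 hP', hX⟩, rfl⟩
      have h2 : comb X c0 ∈ lineI p := by
        refine mem_lineI_of_homogeneous (isHomogeneous_comb (fun j => isHomogeneous_X _ j) c0) ?_
        have := hp (Fin.last m)
        rwa [hyl] at this
      have hlt' : P' < lineI p := lt_of_le_of_ne hle fun h => h1 (h ▸ h2)
      have h3 := hD P' hP'p fun i hi => hP'.1.2 (Ideal.subset_span ⟨i, hi, rfl⟩)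
      have e1 : m + 1 - m = 0 + 1 := by omega
      rw [e1] at h3
      have h4 : Dle 0 (lineI p) := h3 (lineI p) inferInstance hlt'
      have h5 : (vanishingIdeal ℂ ({p} : Set (Fin (m + 1) → ℂ))).IsMaximal :=
        isMaximal_iff_eq_vanishingIdeal_singleton.2 ⟨p, rfl⟩
      exact h4 _ h5.isPrime (lineI_lt_point hne)
    · have hpv : ∀ i, eval p (v i) = 0 := by
        intro i
        rw [hvx i, map_sum]
        refine Finset.sum_eq_zero fun j _ => ?_
        rw [map_mul, hp j, mul_zero]
      obtain ⟨b, hb, c, rfl⟩ := hcov' p hp0 hpv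
      have hc : c ≠ 0 := by
        rintro rfl
        exact hp0 (zero_smul _ _)
      obtain ⟨ha0, -⟩ := ha b hb
      -- the relation between the `x_i`
      set a' : Fin (m + 1) → MvPolynomial (Fin (m + 1)) ℂ := fun i => ∑ k, Bm k i * a b k with ha'
      have h0' : ∑ i, a' i * x i = 0 := by
        rw [← ha0]
        simp only [ha', Finset.sum_mul]
        rw [Finset.sum_comm]
        refine Finset.sum_congr rfl fun k _ => ?_
        rw [hvx k, Finset.mul_sum]
        refine Finset.sum_congr rfl fun i _ => ?_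
        ring
      have hne : eval b (a' (Fin.last m)) ≠ 0 := by
        intro h0
        refine hSU _ (Finset.mem_image.2 ⟨b, hb, rfl⟩) ?_
        show (fun i => eval b (a b i)) ∈ Submodule.span ℂ (vals U b m)
        -- `s = ∑ (s B)_i A_i`
        have h2 : (fun l => eval b (a b l)) =
            ∑ i, eval b (a' i) • fun l => eval b (A i l) := by
          funext l
          rw [Finset.sum_apply]
          simp only [Pi.smul_apply, smul_eq_mul]
          have h3 : a b l = ∑ i, a' i * A i l := by
            simp only [ha', Finset.sum_mul]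
            rw [Finset.sum_comm]
            have h4 : ∀ k, ∑ i, Bm k i * a b k * A i l = (Bm * A) k l * a b k := by
              intro k
              rw [Matrix.mul_apply, Finset.sum_mul]
              exact Finset.sum_congr rfl fun i _ => by ring
            rw [Finset.sum_congr rfl fun k _ => h4 k, hBA]
            rw [Finset.sum_eq_single l (fun k _ hk => by
              rw [Matrix.one_apply_ne hk, zero_mul])
              (fun h => absurd (Finset.mem_univ _) h), Matrix.one_apply_eq, one_mul]
          conv_lhs => rw [h3]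
          rw [map_sum]
          exact Finset.sum_congr rfl fun i _ => map_mul _ _ _
        rw [h2, Fin.sum_univ_castSucc, h0, zero_smul, add_zero]
        refine Submodule.sum_mem _ fun i _ => Submodule.smul_mem _ _ ?_
        refine Submodule.subset_span ⟨i, ?_⟩
        funext l
        show eval b (U i l) = eval b (A (Fin.castSucc i) l)
        rw [hAi _ (Fin.castSucc_lt_last i).ne]
        rfl
      obtain ⟨δ, a'', h1, h2, h3⟩ := exists_form_coeff hxh h0' hne
      refine ⟨a'', h2, ?_⟩
      rw [MPb07157.eval_smul_of_isHomogeneous h1]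
      exact mul_ne_zero (pow_ne_zero _ hc) h3
  exact LT.of_matrix (x := x) (A := A) (B := Bm) (fun i => rfl) hvx hBA hLTx

/-- Permutations. -/
theorem LT.of_perm {v : Fin (m + 1) → MvPolynomial (Fin (m + 1)) ℂ}
    (σ : Equiv.Perm (Fin (m + 1))) (h : LT fun i => v (σ i)) : LT v := by
  classical
  refine LT.of_matrix (x := fun i => v (σ i)) (A := Matrix.of fun i j => if σ i = j then 1 else 0)
    (B := Matrix.of fun i j => if i = σ j then 1 else 0) (fun i => ?_) (fun i => ?_) ?_ h
  · rw [Finset.sum_eq_single (σ i)]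
    · rw [Matrix.of_apply, if_pos rfl, one_mul]
    · intro j _ hj
      rw [Matrix.of_apply, if_neg hj.symm, zero_mul]
    · intro h1
      exact absurd (Finset.mem_univ _) h1
  · rw [Finset.sum_eq_single (σ.symm i)]
    · rw [Matrix.of_apply, Equiv.apply_symm_apply, if_pos rfl, one_mul]
    · intro j _ hj
      rw [Matrix.of_apply, if_neg, zero_mul]
      rintro rfl
      exact hj (Equiv.symm_apply_apply σ j).symm
    · intro h1
      exact absurd (Finset.mem_univ _) h1
  · ext i k : 2
    rw [Matrix.mul_apply, Finset.sum_eq_single (σ.symm i)]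
    · rw [Matrix.of_apply, Matrix.of_apply, Equiv.apply_symm_apply, if_pos rfl, one_mul,
        Matrix.one_apply]
    · intro j _ hj
      rw [Matrix.of_apply, if_neg, zero_mul]
      rintro rfl
      exact hj (Equiv.symm_apply_apply σ j).symm
    · intro h1
      exact absurd (Finset.mem_univ _) h1

/-- **Linear type** for `n` forms in `n` variables with finitely many common zeros in projective
space, at each of which a relation does not vanish. -/
theorem LT.of_isolated_forms {v : Fin (m + 1) → MvPolynomial (Fin (m + 1)) ℂ}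
    {e : Fin (m + 1) → ℕ} (he0 : ∀ i, 0 < e i)
    (hv : ∀ i, (v i).IsHomogeneous (e i)) {B : Finset (Fin (m + 1) → ℂ)}
    (hcov : ∀ p : Fin (m + 1) → ℂ, p ≠ 0 → (∀ i, eval p (v i) = 0) → ∃ b ∈ B, ∃ c : ℂ, p = c • b)
    (hloc : ∀ p : Fin (m + 1) → ℂ, p ≠ 0 → (∀ i, eval p (v i) = 0) →
      ∃ a : Fin (m + 1) → MvPolynomial (Fin (m + 1)) ℂ, ∑ i, a i * v i = 0 ∧
        ∃ i, eval p (a i) ≠ 0) : LT v := by
  classical
  set σ := Tuple.sort (OrderDual.toDual ∘ e) with hσ
  have hanti : Antitone fun i => e (σ i) := by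
    have h1 := Tuple.monotone_sort (OrderDual.toDual ∘ e)
    intro i j hij
    exact h1 hij
  refine LT.of_perm σ (LT.of_isolated_antitone (e := fun i => e (σ i)) (fun i => he0 _) hanti
    (fun i => hv _) (B := B) (fun p hp hpv => hcov p hp fun i => ?_) (fun p hp hpv => ?_))
  · have := hpv (σ.symm i)
    rwa [Equiv.apply_symm_apply] at this
  · obtain ⟨a, ha, i, hi⟩ := hloc p hp fun i => by
      have := hpv (σ.symm i)
      rwa [Equiv.apply_symm_apply] at this
    refine ⟨fun i => a (σ i), ?_, σ.symm i, ?_⟩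
    · rw [← ha]
      exact Equiv.sum_comp σ fun i => a i * v i
    · show eval p (a (σ (σ.symm i))) ≠ 0
      rw [Equiv.apply_symm_apply]
      exact hi

end WI

end MPb07157I
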