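import Pool.Agent.Lib.MP_b07157_agWI.LB
import Pool.Agent.Lib.MP_b07157_agI.IsoA
import Pool.Agent.Lib.MP_b07157_agM.WCDefs
import Pool.Agent.Lib.MP_b07157_agYW.Defs
import Pool.Agent.Lib.MP_b07157_agYC.BsC

/-!
# Linear type for weighted homogeneous polynomials with finitely many critical orbits
-/

noncomputable section

namespace MPb07157I

open MvPolynomial MPb07157Q

namespace WI

variable {n : ℕ}

/-- The substitution `x_i = z_i^(a_i)`. -/
def theta (a : Fin n → ℕ) : MvPolynomial (Fin n) ℂ →ₐ[ℂ] MvPolynomial (Fin n) ℂ :=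
  aeval fun j => X j ^ a j

/-- The projection. -/
def proj (a : Fin n → ℕ) : MvPolynomial (Fin n) ℂ →ₗ[ℂ] MvPolynomial (Fin n) ℂ :=
  (basisMonomials (Fin n) ℂ).constr ℂ fun u =>
    if ∀ i, a i ∣ u i then monomial (Finsupp.equivFunOnFinite.symm fun i => u i / a i) 1 else 0

theorem proj_monomial (a : Fin n → ℕ) (u : Fin n →₀ ℕ) (c : ℂ) : proj a (monomial u c) =
    c • if ∀ i, a i ∣ u i then
      (monomial (Finsupp.equivFunOnFinite.symm fun i => u i / a i) 1 : MvPolynomial (Fin n) ℂ)
      else 0 := by
  have h1 : (monomial u c : MvPolynomial (Fin n) ℂ) = c • basisMonomials (Fin n) ℂ u := by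
    rw [coe_basisMonomials, smul_monomial, smul_eq_mul, mul_one]
  rw [h1, map_smul]
  unfold proj
  rw [Module.Basis.constr_basis]

theorem proj_X_mul {a : Fin n → ℕ} (ha : ∀ i, 0 < a i) (i : Fin n) (h : MvPolynomial (Fin n) ℂ) :
    proj a (X i ^ a i * h) = X i * proj a h := by
  classical
  induction h using MvPolynomial.induction_on' with
  | monomial u c =>
    have h1 : (X i ^ a i * monomial u c : MvPolynomial (Fin n) ℂ) =
        monomial (Finsupp.single i (a i) + u) c := by
      rw [X_pow_eq_monomial, monomial_mul, one_mul]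
    rw [h1, proj_monomial, proj_monomial]
    have h2 : (∀ j, a j ∣ (Finsupp.single i (a i) + u) j) ↔ ∀ j, a j ∣ u j := by
      refine forall_congr' fun j => ?_
      rw [Finsupp.add_apply]
      by_cases hj : j = i
      · subst hj
        rw [Finsupp.single_eq_same]
        exact (Nat.dvd_add_right (dvd_refl _))
      · rw [Finsupp.single_eq_of_ne hj, zero_add]
    by_cases hd : ∀ j, a j ∣ u j
    · rw [if_pos (h2.2 hd), if_pos hd, mul_smul_comm]
      congr 1
      have h3 : (X i : MvPolynomial (Fin n) ℂ) = monomial (Finsupp.single i 1) 1 := rfl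
      have h4 : (Finsupp.equivFunOnFinite.symm fun j => (Finsupp.single i (a i) + u) j / a j) =
          Finsupp.single i 1 + Finsupp.equivFunOnFinite.symm fun j => u j / a j := by
        ext j
        rw [Finsupp.add_apply]
        show (Finsupp.single i (a i) + u) j / a j = Finsupp.single i 1 j + u j / a j
        rw [Finsupp.add_apply]
        by_cases hj : j = i
        · subst hj
          rw [Finsupp.single_eq_same, Finsupp.single_eq_same, Nat.add_div_left _ (ha j)]
          omega
        · rw [Finsupp.single_eq_of_ne hj, Finsupp.single_eq_of_ne hj, zero_add, zero_add]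
      rw [h3, h4, monomial_mul, one_mul]
    · rw [if_neg (fun h => hd (h2.1 h)), if_neg hd, smul_zero, mul_zero]
  | add p q hp hq => rw [mul_add, map_add, map_add, hp, hq, mul_add]

theorem proj_mul {a : Fin n → ℕ} (ha : ∀ i, 0 < a i) (g h : MvPolynomial (Fin n) ℂ) :
    proj a (theta a g * h) = g * proj a h := by
  induction g using MvPolynomial.induction_on generalizing h with
  | C c =>
    rw [← MvPolynomial.algebraMap_eq, AlgHom.commutes, ← Algebra.smul_def, ← Algebra.smul_def,
      map_smul]
  | add p q hp hq => rw [map_add, add_mul, map_add, hp, hq, add_mul]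
  | mul_X p i hp =>
    have h1 : theta a (p * X i) * h = theta a p * (X i ^ a i * h) := by
      rw [map_mul]
      unfold theta
      rw [aeval_X, mul_assoc]
    rw [h1, hp, proj_X_mul ha, mul_assoc]

theorem proj_theta {a : Fin n → ℕ} (ha : ∀ i, 0 < a i) (g : MvPolynomial (Fin n) ℂ) :
    proj a (theta a g) = g := by
  have h1 := proj_mul ha g 1
  have h2 : proj a (1 : MvPolynomial (Fin n) ℂ) = 1 := by
    have h3 : (1 : MvPolynomial (Fin n) ℂ) = monomial 0 1 := rfl
    have h4 : (Finsupp.equivFunOnFinite.symm fun j => (0 : Fin n →₀ ℕ) j / a j) = 0 := by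
      ext i
      show (0 : Fin n →₀ ℕ) i / a i = (0 : Fin n →₀ ℕ) i
      rw [Finsupp.zero_apply, Nat.zero_div]
    rw [h3, proj_monomial, if_pos (fun i => by rw [Finsupp.zero_apply]; exact dvd_zero _), one_smul,
      h4]
  rw [mul_one, h2, mul_one] at h1
  exact h1

/-- Linear type descends. -/
theorem LT.descent {a : Fin n → ℕ} (ha : ∀ i, 0 < a i) {v : Fin n → MvPolynomial (Fin n) ℂ}
    (h : LT fun i => theta a (v i)) : LT v := by
  classical
  intro M F hF h0
  have h1 : map (theta a : MvPolynomial (Fin n) ℂ →+* MvPolynomial (Fin n) ℂ) F ∈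
      LI fun i => theta a (v i) := by
    refine h M _ (hF.map _) ?_
    have h2 := eval_map_comp (theta a : MvPolynomial (Fin n) ℂ →+* MvPolynomial (Fin n) ℂ) v F
    have h3 : eval (fun i => theta a (v i))
        (map (theta a : MvPolynomial (Fin n) ℂ →+* MvPolynomial (Fin n) ℂ) F) =
        (theta a : MvPolynomial (Fin n) ℂ →+* MvPolynomial (Fin n) ℂ) (eval v F) := h2
    rw [h3, h0, map_zero]
  obtain ⟨T, hT, hFT⟩ := mem_LI.1 h1
  -- the projection of the coefficients
  have hP : ∀ t : MvPolynomial (Fin n) (MvPolynomial (Fin n) ℂ),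
      ∃ t' : MvPolynomial (Fin n) (MvPolynomial (Fin n) ℂ), ∀ u, coeff u t' = proj a (coeff u t) := by
    intro t
    refine ⟨∑ u ∈ t.support, monomial u (proj a (coeff u t)), fun u => ?_⟩
    rw [coeff_sum]
    by_cases hu : u ∈ t.support
    · rw [Finset.sum_eq_single u]
      · rw [coeff_monomial, if_pos rfl]
      · intro w _ hw
        rw [coeff_monomial, if_neg hw]
      · intro h4
        exact absurd hu h4
    · rw [Finset.sum_eq_zero]
      · rw [notMem_support_iff.1 hu, map_zero]
      · intro w hw
        rw [coeff_monomial, if_neg]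
        rintro rfl
        exact hu hw
  choose T' hT' using fun i => hP (T i)
  refine mem_LI.2 ⟨T', ?_, ?_⟩
  · ext1 u
    have h2 := congrArg (fun t => proj a (coeff u t)) hT
    simp only [coeff_sum, coeff_zero, map_zero, map_sum] at h2
    rw [coeff_sum, coeff_zero]
    refine Eq.trans (Finset.sum_congr rfl fun i _ => ?_) h2
    rw [mul_comm (T' i), coeff_C_mul, hT', mul_comm (T i), coeff_C_mul, proj_mul ha]
  · ext1 u
    have h2 := congrArg (fun t => proj a (coeff u t)) hFT
    simp only [coeff_sum, coeff_map, map_sum] at h2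
    have h3 : proj a ((theta a : MvPolynomial (Fin n) ℂ →+* MvPolynomial (Fin n) ℂ) (coeff u F)) =
        coeff u F := proj_theta ha _
    rw [h3] at h2
    rw [h2, coeff_sum]
    refine Finset.sum_congr rfl fun i _ => ?_
    rw [coeff_mul_X', coeff_mul_X']
    split_ifs
    · rw [hT']
    · rw [map_zero]

theorem eval_theta (a : Fin n → ℕ) (p : Fin n → ℂ) (g : MvPolynomial (Fin n) ℂ) :
    eval p (theta a g) = eval (fun j => p j ^ a j) g := by
  unfold theta
  induction g using MvPolynomial.induction_on with
  | C c => rw [← MvPolynomial.algebraMap_eq, AlgHom.commutes, MvPolynomial.algebraMap_eq, eval_C,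
      eval_C]
  | add p q hp hq => rw [map_add, map_add, hp, hq, map_add]
  | mul_X p i hp => rw [map_mul, map_mul, hp, map_mul, aeval_X, map_pow, eval_X, eval_X]

theorem isHomogeneous_theta {a : Fin n → ℕ} {D : ℕ} {g : MvPolynomial (Fin n) ℂ}
    (hg : g.IsWeightedHomogeneous a D) : (theta a g).IsHomogeneous D := by
  unfold theta
  rw [aeval_def, eval₂_eq']
  refine IsHomogeneous.sum _ _ _ fun u hu => ?_
  have h1 : ∑ i, a i * u i = D := by
    have h2 := hg (mem_support_iff.1 hu)
    rw [Finsupp.weight_apply, Finsupp.sum_fintype _ _ (fun i => by rw [zero_smul])] at h2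
    rw [← h2]
    exact Finset.sum_congr rfl fun i _ => by rw [smul_eq_mul, mul_comm]
  have h2 : (∏ i, (X i ^ a i : MvPolynomial (Fin n) ℂ) ^ u i).IsHomogeneous (∑ i, a i * u i) := by
    refine IsHomogeneous.prod _ _ _ fun i _ => ?_
    rw [← pow_mul]
    exact isHomogeneous_X_pow i (a i * u i)
  rw [h1] at h2
  exact h2.C_mul _

end WI

end MPb07157I

namespace MPb07157

open MvPolynomial MPb07157Q

/-- **Linear type** for weighted homogeneous polynomials whose critical points `q ≠ 0` lie on
finitely many orbits, if at each of them a polynomial vector field which kills `f` does not vanish. -/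
theorem linType_of_wIsolated {m : ℕ} {f : MvPolynomial (Fin (m + 1)) ℂ} {a : Fin (m + 1) → ℕ}
    {D : ℕ} (ha : ∀ i, 0 < a i) (haD : ∀ i, a i < D) (hom : f.IsWeightedHomogeneous a D)
    {B : Finset (Fin (m + 1) → ℂ)}
    (hcov : ∀ q : Fin (m + 1) → ℂ, q ≠ 0 → (∀ i, eval q (pderiv i f) = 0) →
      ∃ b ∈ B, ∃ t : ℂ, q = YW.sc a t b)
    (hloc : ∀ q : Fin (m + 1) → ℂ, q ≠ 0 → (∀ i, eval q (pderiv i f) = 0) → QHat f q) :
    LinType f := by
  classical
  -- roots
  have hroot : ∀ (b : Fin (m + 1) → ℂ) (i : Fin (m + 1)), ∃ β : ℂ, β ^ a i = b i := fun b i =>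
    IsAlgClosed.exists_pow_nat_eq (b i) (ha i)
  choose β hβ using hroot
  have hZ : {ζ : Fin (m + 1) → ℂ | ∀ i, ζ i ∈ {z : ℂ | z ^ a i = 1}}.Finite := by
    refine Set.Finite.pi' fun i => ?_
    refine (Polynomial.nthRoots (a i) (1 : ℂ)).toFinset.finite_toSet.subset ?_
    intro z hz
    rw [Finset.mem_coe, Multiset.mem_toFinset, Polynomial.mem_nthRoots (ha i)]
    exact hz
  let B' : Finset (Fin (m + 1) → ℂ) :=
    (B ×ˢ hZ.toFinset).image fun z i => z.2 i * β z.1 i
  have hne : ∀ p : Fin (m + 1) → ℂ, p ≠ 0 → (fun j => p j ^ a j) ≠ 0 := by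
    intro p hp h
    apply hp
    funext j
    have h1 := congrFun h j
    simp only [Pi.zero_apply] at h1
    exact pow_eq_zero_iff (ha j).ne' |>.1 h1
  have hD : ∀ i, (pderiv i f).IsWeightedHomogeneous a (D - a i) := fun i =>
    YC.bsC_pderiv hom (haD i).le
  have h : MPb07157I.LT fun i => pderiv i f := by
    refine MPb07157I.WI.LT.descent ha ?_
    refine MPb07157I.WI.LT.of_isolated_forms (e := fun i => D - a i)
      (fun i => by have := haD i; omega) (fun i => MPb07157I.WI.isHomogeneous_theta (hD i))
      (B := B') (fun p hp hpv => ?_) (fun p hp hpv => ?_)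
    · obtain ⟨b, hb, t, ht⟩ := hcov _ (hne p hp) fun i => by
        have := hpv i
        rwa [MPb07157I.WI.eval_theta] at this
      have hti : ∀ i, p i ^ a i = (t * β b i) ^ a i := by
        intro i
        have h1 := congrFun ht i
        have h2 : YW.sc a t b i = t ^ a i * b i := rfl
        rw [h2] at h1
        rw [mul_pow, hβ]
        exact h1
      set ζ : Fin (m + 1) → ℂ := fun i => if t * β b i = 0 then 1 else p i / (t * β b i) with hζ
      refine ⟨fun i => ζ i * β b i, ?_, t, ?_⟩
      · refine Finset.mem_image.2 ⟨(b, ζ), Finset.mem_product.2 ⟨hb, hZ.mem_toFinset.2 ?_⟩, rfl⟩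
        intro i
        show ζ i ^ a i = 1
        simp only [hζ]
        split_ifs with h1
        · exact one_pow _
        · rw [div_pow, hti i, div_self (pow_ne_zero _ h1)]
      · funext i
        show p i = t * (ζ i * β b i)
        simp only [hζ]
        split_ifs with h1
        · have h2 := hti i
          rw [h1, zero_pow (ha i).ne'] at h2
          rw [one_mul, h1]
          exact pow_eq_zero_iff (ha i).ne' |>.1 h2
        · have h2 : t ≠ 0 := fun h => h1 (by rw [h, zero_mul])
          have h3 : β b i ≠ 0 := fun h => h1 (by rw [h, mul_zero])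
          field_simp
    · obtain ⟨c, hc, i, hi⟩ := hloc _ (hne p hp) fun i => by
        have := hpv i
        rwa [MPb07157I.WI.eval_theta] at this
      refine ⟨fun i => MPb07157I.WI.theta a (c i), ?_, i, ?_⟩
      · rw [← map_zero (MPb07157I.WI.theta a), ← hc, map_sum]
        exact Finset.sum_congr rfl fun j _ => (map_mul _ _ _).symm
      · rw [MPb07157I.WI.eval_theta]
        exact hi
  intro M _ F hF h0
  exact (MPb07157Q.mem_LI).1 (h M F hF h0)

end MPb07157
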